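import Pool.Agent.Lib.P49q.Defs
import Pool.Agent.Lib.P49k.Chn
import Pool.Agent.Lib.P49k.Acc

/-!
# Module P49q.Lab: the canonical family of chains

PROOF SKETCH. `Kr` is transitive, irreflexive, total on `range n` and contains `r` (`pd` is strictly monotone). `gR`, `vR` are
monotone rules, `tab_inv` (file `P49k/Chn.lean`) and `tabP_fix`; `(s * (n + 1) + g) / (n + 1) = s` etc. is
`PLvAux.divmod` for `g < n + 1`.
(1) If `C 0, ..., C (q - 1)` are disjoint chains, `U` their union, `A ⊆ U` an initial segment for `Kr` and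
`g ≤ (U \ A).card`, then `Gq n r q s g` for the state `s` whose digit `j` is the last element of `C j ∩ A` (`n` if
empty): induction on `g`, add the `Kr`-least element of `U \ A`. For `A = ∅`: `Gq n r q s0 M`, `s0` the code of the digits `n`.
(2) So there are states `s 0 = s0, ..., s M` with `Vq n r q M (s i) (M - i)` and `Nx n r q (s i) (M - i - 1) (s (i + 1))`, and
these are all states in `Vq` (the next state is unique). Step `i` adds the element `y i` to the chain `c i`; `y i` is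
`Kr`-increasing (all digits of `s i` other than `n` are among `y 0, ..., y (i - 1)`, and `y (i - 1)` is a digit of `s i`).
`Lq n r q M j y` iff `y = y i` and `j = c i` for some `i < M`.
-/

set_option autoImplicit false

namespace Pool.Agent.P49q

open Finset Pool.Agent.P99b9fe Pool.Agent.P49d Pool.Agent.P49k

theorem pd_lt {n : ℕ} {r : ℕ → ℕ → Prop} (hr : SO r) (hb : ∀ x y, r x y → x < n ∧ y < n) {x y : ℕ}
    (h : r x y) : pd n r x < pd n r y := by
  classical
  unfold pd
  refine Finset.card_lt_card ((Finset.ssubset_iff_of_subset ?_).2 ⟨x, ?_, ?_⟩)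
  · intro z hz
    rw [Finset.mem_filter] at hz ⊢
    exact ⟨hz.1, hr.trans _ _ _ hz.2 h⟩
  · rw [Finset.mem_filter]
    exact ⟨Finset.mem_range.2 (hb _ _ h).1, h⟩
  · rw [Finset.mem_filter]
    exact fun hz => hr.irr x hz.2

theorem kr_of {n : ℕ} {r : ℕ → ℕ → Prop} (hr : SO r) (hb : ∀ x y, r x y → x < n ∧ y < n) {x y : ℕ}
    (h : r x y) : Kr n r x y := Or.inl (pd_lt hr hb h)

theorem kr_irr {n : ℕ} {r : ℕ → ℕ → Prop} {x : ℕ} : ¬ Kr n r x x := by
  rintro (h | ⟨_, h⟩) <;> omega

theorem kr_trans {n : ℕ} {r : ℕ → ℕ → Prop} {x y z : ℕ} (h : Kr n r x y) (h' : Kr n r y z) :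
    Kr n r x z := by
  unfold Kr at *
  omega

theorem kr_tot {n : ℕ} {r : ℕ → ℕ → Prop} {x y : ℕ} (h : x ≠ y) : Kr n r x y ∨ Kr n r y x := by
  unfold Kr
  omega

/-- The `Kr`-least element. -/
theorem kr_min {n : ℕ} {r : ℕ → ℕ → Prop} {W : Finset ℕ} (hW : W.Nonempty) :
    ∃ y ∈ W, ∀ z ∈ W, z ≠ y → Kr n r y z := by
  obtain ⟨y, hy, hm⟩ := Finset.exists_min_image W (fun x => toLex (pd n r x, x)) hW
  refine ⟨y, hy, fun z hz hne => ?_⟩
  have h1 := hm z hz
  rw [Prod.Lex.toLex_le_toLex] at h1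
  unfold Kr
  simp only at h1
  omega

theorem gq_fix {n q s g : ℕ} {r : ℕ → ℕ → Prop} (hs : s < (n + 1) ^ q) (hg : g < n + 1)
    (h : g = 0 ∨ ∃ s' < (n + 1) ^ q, St n r q s s' ∧ Gq n r q s' (g - 1)) : Gq n r q s g := by
  have hlt : s * (n + 1) + g < (n + 1) ^ q * (n + 1) := by
    have h3 : (s + 1) * (n + 1) ≤ (n + 1) ^ q * (n + 1) := Nat.mul_le_mul_right _ hs
    have h4 : (s + 1) * (n + 1) = s * (n + 1) + (n + 1) := by ring
    omega
  refine tabP_fix hlt ?_
  show gC n r q _ ((s * (n + 1) + g) / (n + 1)) ((s * (n + 1) + g) % (n + 1))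
  rw [(PLvAux.divmod n s g hg).1, (PLvAux.divmod n s g hg).2]
  exact h

theorem gq_of {n q : ℕ} {r : ℕ → ℕ → Prop} (hr : SO r) (hb : ∀ x y, r x y → x < n ∧ y < n)
    (C : ℕ → Finset ℕ) (hC' : ∀ j < q, ∀ x ∈ C j, ∀ y ∈ C j, x ≠ y → r x y ∨ r y x)
    (U : Finset ℕ) (hU : U ⊆ range n) (hU' : ∀ x ∈ U, ∃ j < q, x ∈ C j) (g : ℕ) :
    ∀ (A : Finset ℕ) (s : ℕ), (∀ x ∈ A, ∀ y ∈ U, y ∉ A → Kr n r x y) → g ≤ (U \ A).card →
      s < (n + 1) ^ q → (∀ j < q, dg n s j = n ∨ (dg n s j ∈ C j ∧ dg n s j ∈ A)) → Gq n r q s g := by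
  classical
  induction g with
  | zero =>
    intro A s _ _ hs _
    exact gq_fix hs (Nat.succ_pos n) (Or.inl rfl)
  | succ g ih =>
    intro A s hA hg hs hd
    have hcn : (U \ A).card ≤ n := by
      have h1 := Finset.card_le_card ((Finset.sdiff_subset (s := U) (t := A)).trans hU)
      rwa [Finset.card_range] at h1
    have hne : (U \ A).Nonempty := by
      rw [← Finset.card_pos]
      omega
    obtain ⟨y, hy, hmin⟩ := kr_min (n := n) (r := r) hne
    rw [Finset.mem_sdiff] at hy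
    obtain ⟨j, hj, hyj⟩ := hU' y hy.1
    have hyn : y < n := Finset.mem_range.1 (hU hy.1)
    have hdn : ∀ i, dg n s i ≤ n := fun i => Nat.lt_succ_iff.1 (Nat.mod_lt _ (Nat.succ_pos n))
    obtain ⟨s', hs', hs''⟩ := code_ex n q (fun i => if i = j then y else dg n s i) (by
      intro i _
      split_ifs
      · exact hyn.le
      · exact hdn i)
    have hj' : dg n s' j = y := by
      have h1 := hs'' j hj
      rw [if_pos rfl] at h1
      exact h1
    have hi' : ∀ i < q, i ≠ j → dg n s' i = dg n s i := by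
      intro i hi hij
      have h1 := hs'' i hi
      rw [if_neg hij] at h1
      exact h1
    refine gq_fix hs (by omega) (Or.inr ⟨s', hs', ⟨j, hj, by rw [hj']; exact hyn, hi', ?_, ?_⟩, ?_⟩)
    · intro i hi hin
      rw [hj']
      rcases hd i hi with h1 | ⟨_, h1⟩
      · omega
      · exact hA _ h1 y hy.1 hy.2
    · intro hjn
      rw [hj']
      rcases hd j hj with h1 | ⟨h0, h1⟩
      · omega
      · have h2 : Kr n r (dg n s j) y := hA _ h1 y hy.1 hy.2
        have h3 : dg n s j ≠ y := by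
          intro h4
          rw [h4] at h2
          exact kr_irr h2
        rcases hC' j hj _ h0 _ hyj h3 with h4 | h4
        · exact h4
        · exact absurd (kr_trans h2 (kr_of hr hb h4)) kr_irr
    · rw [Nat.add_sub_cancel]
      refine ih (insert y A) s' ?_ ?_ hs' ?_
      · intro x hx z hz hzA
        rw [Finset.mem_insert, not_or] at hzA
        rcases Finset.mem_insert.1 hx with h1 | h1
        · rw [h1]
          exact hmin z (Finset.mem_sdiff.2 ⟨hz, hzA.2⟩) hzA.1
        · exact hA x h1 z hz hzA.2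
      · have h1 : U \ insert y A = (U \ A).erase y := by
          ext z
          simp only [Finset.mem_sdiff, Finset.mem_insert, Finset.mem_erase]
          tauto
        rw [h1, Finset.card_erase_of_mem (Finset.mem_sdiff.2 hy)]
        omega
      · intro i hi
        by_cases hij : i = j
        · rw [hij, hj']
          exact Or.inr ⟨hyj, Finset.mem_insert_self _ _⟩
        · rw [hi' i hi hij]
          rcases hd i hi with h1 | ⟨h0, h1⟩
          · exact Or.inl h1
          · exact Or.inr ⟨h0, Finset.mem_insert_of_mem h1⟩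

open Classical in
theorem chains_le {n q M : ℕ} (C : ℕ → Finset ℕ) (hC : ∀ j < q, C j ⊆ range n)
    (hC'' : ∀ i < q, ∀ j < q, i ≠ j → Disjoint (C i) (C j))
    (hM : M ≤ ∑ j ∈ range q, (C j).card) :
    M ≤ ((range q).biUnion C).card ∧ (range q).biUnion C ⊆ range n := by
  refine ⟨?_, ?_⟩
  · rw [Finset.card_biUnion (fun i hi j hj hij =>
      hC'' i (Finset.mem_range.1 hi) j (Finset.mem_range.1 hj) hij)]
    exact hM
  · intro x hx
    obtain ⟨j, hj, hxj⟩ := Finset.mem_biUnion.1 hx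
    exact hC j (Finset.mem_range.1 hj) hxj

theorem m_le {n q M : ℕ} (C : ℕ → Finset ℕ) (hC : ∀ j < q, C j ⊆ range n)
    (hC'' : ∀ i < q, ∀ j < q, i ≠ j → Disjoint (C i) (C j))
    (hM : M ≤ ∑ j ∈ range q, (C j).card) : M ≤ n := by
  classical
  obtain ⟨h1, h2⟩ := chains_le C hC hC'' hM
  have h3 := Finset.card_le_card h2
  rw [Finset.card_range] at h3
  exact h1.trans h3

/-- From the empty state at least `M` elements can be added. -/
theorem gq_start {n q M : ℕ} {r : ℕ → ℕ → Prop} (hr : SO r) (hb : ∀ x y, r x y → x < n ∧ y < n)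
    (C : ℕ → Finset ℕ) (hC : ∀ j < q, C j ⊆ range n)
    (hC' : ∀ j < q, ∀ x ∈ C j, ∀ y ∈ C j, x ≠ y → r x y ∨ r y x)
    (hC'' : ∀ i < q, ∀ j < q, i ≠ j → Disjoint (C i) (C j))
    (hM : M ≤ ∑ j ∈ range q, (C j).card) {s0 : ℕ} (hs0 : s0 < (n + 1) ^ q)
    (h0 : ∀ j < q, dg n s0 j = n) : Gq n r q s0 M := by
  classical
  obtain ⟨h1, h2⟩ := chains_le C hC hC'' hM
  refine gq_of hr hb C hC' _ h2 ?_ M ∅ s0 ?_ ?_ hs0 (fun j hj => Or.inl (h0 j hj))
  · intro x hx
    obtain ⟨j, hj, hxj⟩ := Finset.mem_biUnion.1 hx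
    exact ⟨j, Finset.mem_range.1 hj, hxj⟩
  · intro x hx
    exact absurd hx (Finset.notMem_empty x)
  · rw [Finset.sdiff_empty]
    exact h1

/-- The digits determine the code. -/
theorem dg_ext {n q : ℕ} : ∀ {a b : ℕ}, a < (n + 1) ^ q → b < (n + 1) ^ q →
    (∀ j < q, dg n a j = dg n b j) → a = b := by
  induction q with
  | zero =>
    intro a b ha hb _
    rw [pow_zero] at ha hb
    omega
  | succ q ih =>
    intro a b ha hb h
    rw [pow_succ] at ha hb
    have h1 : a / (n + 1) = b / (n + 1) := by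
      refine ih (Nat.div_lt_of_lt_mul (by rwa [mul_comm] at ha))
        (Nat.div_lt_of_lt_mul (by rwa [mul_comm] at hb)) ?_
      intro j hj
      have h2 := h (j + 1) (by omega)
      unfold dg at h2 ⊢
      rw [Nat.div_div_eq_div_mul, Nat.div_div_eq_div_mul, mul_comm (n + 1), ← pow_succ]
      exact h2
    have h3 := h 0 (by omega)
    unfold dg at h3
    rw [pow_zero, Nat.div_one, Nat.div_one] at h3
    rw [← Nat.div_add_mod a (n + 1), ← Nat.div_add_mod b (n + 1), h1, h3]

theorem gR_mono (n : ℕ) (r : ℕ → ℕ → Prop) (q : ℕ) (T T' : ℕ → Prop) (hT : ∀ y, T y → T' y)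
    (p : ℕ) (hp : gR n r q T p) : gR n r q T' p := by
  rcases hp with hp | ⟨s', hs', h1, h2⟩
  · exact Or.inl hp
  · exact Or.inr ⟨s', hs', h1, hT _ h2⟩

theorem gq_inv {n q s g : ℕ} {r : ℕ → ℕ → Prop} (hg : g < n + 1) (h : Gq n r q s g) :
    g = 0 ∨ ∃ s' < (n + 1) ^ q, St n r q s s' ∧ Gq n r q s' (g - 1) := by
  have h1 := tab_inv (gR_mono n r q) h
  unfold gR at h1
  rw [(PLvAux.divmod n s g hg).1, (PLvAux.divmod n s g hg).2] at h1
  exact h1

theorem vq_fix {n q M s g : ℕ} {r : ℕ → ℕ → Prop} (hs : s < (n + 1) ^ q) (hg : g < n + 1)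
    (h : (g = M ∧ ∀ j < q, dg n s j = n) ∨
      ∃ s0 < (n + 1) ^ q, g < n ∧ Vq n r q M s0 (g + 1) ∧ Nx n r q s0 g s) : Vq n r q M s g := by
  have hlt : s * (n + 1) + g < (n + 1) ^ q * (n + 1) := by
    have h3 : (s + 1) * (n + 1) ≤ (n + 1) ^ q * (n + 1) := Nat.mul_le_mul_right _ hs
    have h4 : (s + 1) * (n + 1) = s * (n + 1) + (n + 1) := by ring
    omega
  refine tabP_fix hlt ?_
  show vC n r q M _ ((s * (n + 1) + g) / (n + 1)) ((s * (n + 1) + g) % (n + 1))
  rw [(PLvAux.divmod n s g hg).1, (PLvAux.divmod n s g hg).2]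
  exact h

theorem nx_uniq {n q s g a b : ℕ} {r : ℕ → ℕ → Prop} (ha : Nx n r q s g a) (hb : Nx n r q s g b) :
    a = b := by
  rcases Nat.lt_trichotomy a b with h | h | h
  · exact absurd ⟨ha.1, ha.2.1⟩ (hb.2.2 a h)
  · exact h
  · exact absurd ⟨hb.1, hb.2.1⟩ (ha.2.2 b h)

/-- The canonical path. -/
theorem path_ex {n q M s0 : ℕ} {r : ℕ → ℕ → Prop} (hM : M ≤ n) (hs0 : s0 < (n + 1) ^ q)
    (hG : Gq n r q s0 M) :
    ∃ st : ℕ → ℕ, st 0 = s0 ∧ (∀ i ≤ M, st i < (n + 1) ^ q) ∧
      ∀ i < M, Nx n r q (st i) (M - i - 1) (st (i + 1)) := by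
  classical
  have hstep : ∀ s g, g < n → Gq n r q s (g + 1) →
      ∃ s', s' < (n + 1) ^ q ∧ Nx n r q s g s' := by
    intro s g hg h
    have hex : ∃ s', St n r q s s' ∧ Gq n r q s' g := by
      rcases gq_inv (by omega) h with h1 | ⟨s', _, h1, h2⟩
      · omega
      · exact ⟨s', h1, by rwa [Nat.add_sub_cancel] at h2⟩
    refine ⟨Nat.find hex, ?_, (Nat.find_spec hex).1, (Nat.find_spec hex).2, ?_⟩
    · rcases gq_inv (by omega) h with h1 | ⟨s', hs', h1, h2⟩
      · omega
      · exact lt_of_le_of_lt (Nat.find_min' hex ⟨h1, by rwa [Nat.add_sub_cancel] at h2⟩) hs'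
    · intro s'' hs''
      exact Nat.find_min hex hs''
  let F : ℕ → ℕ → ℕ := fun i s =>
    if h : ∃ s', s' < (n + 1) ^ q ∧ Nx n r q s (M - i - 1) s' then Classical.choose h else 0
  let st : ℕ → ℕ := fun i => Nat.rec s0 (fun i s => F i s) i
  have hst : ∀ i, st (i + 1) = F i (st i) := fun i => rfl
  have key : ∀ i, i ≤ M → st i < (n + 1) ^ q ∧ Gq n r q (st i) (M - i) := by
    intro i
    induction i with
    | zero =>
      intro _
      exact ⟨hs0, by rw [Nat.sub_zero]; exact hG⟩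
    | succ i ih =>
      intro hi
      obtain ⟨h1, h2⟩ := ih (by omega)
      have h3 : M - i = (M - i - 1) + 1 := by omega
      rw [h3] at h2
      have h4 := hstep (st i) (M - i - 1) (by omega) h2
      have h5 : st (i + 1) = Classical.choose h4 := by
        rw [hst]
        exact dif_pos h4
      have h6 := Classical.choose_spec h4
      rw [← h5] at h6
      refine ⟨h6.1, ?_⟩
      have h7 : M - (i + 1) = M - i - 1 := by omega
      rw [h7]
      exact h6.2.2.1
  refine ⟨st, rfl, fun i hi => (key i hi).1, ?_⟩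
  intro i hi
  obtain ⟨_, h2⟩ := key i (by omega)
  have h3 : M - i = (M - i - 1) + 1 := by omega
  rw [h3] at h2
  have h4 := hstep (st i) (M - i - 1) (by omega) h2
  have h5 : st (i + 1) = Classical.choose h4 := by
    rw [hst]
    exact dif_pos h4
  have h6 := Classical.choose_spec h4
  rw [← h5] at h6
  exact h6.2

theorem vq_iff {n q M s0 : ℕ} {r : ℕ → ℕ → Prop} (hM : M ≤ n) (hs0 : s0 < (n + 1) ^ q)
    (h0 : ∀ j < q, dg n s0 j = n) {st : ℕ → ℕ} (hst0 : st 0 = s0)
    (hst1 : ∀ i ≤ M, st i < (n + 1) ^ q)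
    (hst : ∀ i < M, Nx n r q (st i) (M - i - 1) (st (i + 1))) {s g : ℕ} (hg : g < n + 1) :
    Vq n r q M s g ↔ g ≤ M ∧ s = st (M - g) := by
  constructor
  · intro h
    have key : ∀ p, tabP (vR n r q M) ((n + 1) ^ q * (n + 1)) ((n + 1) ^ q * (n + 1)) p →
        p % (n + 1) ≤ M ∧ p / (n + 1) = st (M - p % (n + 1)) := by
      refine tabP_induct (P := fun p => p % (n + 1) ≤ M ∧ p / (n + 1) = st (M - p % (n + 1))) ?_ _
      intro T hT p hp hR
      have hpl : p / (n + 1) < (n + 1) ^ q := Nat.div_lt_of_lt_mul (by rwa [mul_comm] at hp)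
      rcases hR with ⟨h1, h2⟩ | ⟨s1, hs1, h1, h2, h3⟩
      · refine ⟨h1.le, ?_⟩
        rw [h1, Nat.sub_self, hst0]
        refine dg_ext hpl hs0 ?_
        intro j hj
        rw [h2 j hj, h0 j hj]
      · have h4 := hT _ h2
        rw [(PLvAux.divmod n s1 (p % (n + 1) + 1) (by omega)).1,
          (PLvAux.divmod n s1 (p % (n + 1) + 1) (by omega)).2] at h4
        obtain ⟨h5, h6⟩ := h4
        refine ⟨by omega, ?_⟩
        have h7 := hst (M - (p % (n + 1) + 1)) (by omega)
        have h8 : M - (M - (p % (n + 1) + 1)) - 1 = p % (n + 1) := by omega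
        have h9 : M - (p % (n + 1) + 1) + 1 = M - p % (n + 1) := by omega
        rw [h8, h9, ← h6] at h7
        exact nx_uniq h3 h7
    have h1 := key _ h
    rwa [(PLvAux.divmod n s g hg).1, (PLvAux.divmod n s g hg).2] at h1
  · rintro ⟨h1, h2⟩
    have key : ∀ i, i ≤ M → Vq n r q M (st i) (M - i) := by
      intro i
      induction i with
      | zero =>
        intro _
        refine vq_fix (hst1 0 (by omega)) (by omega) (Or.inl ⟨by omega, ?_⟩)
        rw [hst0]
        exact h0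
      | succ i ih =>
        intro hi
        refine vq_fix (hst1 _ hi) (by omega) (Or.inr ⟨st i, hst1 i (by omega), by omega, ?_, ?_⟩)
        · have h3 : M - (i + 1) + 1 = M - i := by omega
          rw [h3]
          exact ih (by omega)
        · have h3 : M - (i + 1) = M - i - 1 := by omega
          rw [h3]
          exact hst i (by omega)
    have h3 := key (M - g) (by omega)
    have h4 : M - (M - g) = g := by omega
    rw [h4, ← h2] at h3
    exact h3

theorem lq_iff {n q M s0 : ℕ} {r : ℕ → ℕ → Prop} (hM : M ≤ n) (hs0 : s0 < (n + 1) ^ q)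
    (h0 : ∀ j < q, dg n s0 j = n) {st : ℕ → ℕ} (hst0 : st 0 = s0)
    (hst1 : ∀ i ≤ M, st i < (n + 1) ^ q)
    (hst : ∀ i < M, Nx n r q (st i) (M - i - 1) (st (i + 1))) {j y : ℕ} :
    Lq n r q M j y ↔ y < n ∧ ∃ i < M, dg n (st (i + 1)) j = y ∧ dg n (st i) j ≠ y := by
  unfold Lq
  refine and_congr_right fun hy => ?_
  constructor
  · rintro ⟨g, hg, s, hs, s', hs', hV, hN, h1, h2⟩
    rw [vq_iff hM hs0 h0 hst0 hst1 hst (by omega)] at hV
    obtain ⟨h3, h4⟩ := hV
    have h5 := hst (M - (g + 1)) (by omega)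
    have h6 : M - (M - (g + 1)) - 1 = g := by omega
    rw [h6, ← h4] at h5
    refine ⟨M - (g + 1), by omega, ?_, ?_⟩
    · rw [← nx_uniq hN h5]
      exact h1
    · rw [← h4]
      exact h2
  · rintro ⟨i, hi, h1, h2⟩
    refine ⟨M - i - 1, by omega, st i, hst1 i (by omega), st (i + 1), hst1 _ hi, ?_, hst i hi, h1, h2⟩
    rw [vq_iff hM hs0 h0 hst0 hst1 hst (by omega)]
    refine ⟨by omega, ?_⟩
    have h3 : M - (M - i - 1 + 1) = i := by omega
    rw [h3]

open Classical in
theorem lab_path {n q M s0 : ℕ} {r : ℕ → ℕ → Prop} (hr : SO r) (hM : M ≤ n)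
    (hs0 : s0 < (n + 1) ^ q) (h0 : ∀ j < q, dg n s0 j = n) (hG : Gq n r q s0 M) :
    (∀ j < q, ∀ x y, Lq n r q M j x → Lq n r q M j y → x ≠ y → r x y ∨ r y x) ∧
    (∀ i < q, ∀ j < q, ∀ x, Lq n r q M i x → Lq n r q M j x → i = j) ∧
    ∑ j ∈ range q, ((range n).filter (fun x => Lq n r q M j x)).card = M := by
  obtain ⟨st, hst0, hst1, hst⟩ := path_ex hM hs0 hG
  have hc : ∀ i, ∃ j, i < M → j < q ∧ dg n (st (i + 1)) j < n ∧
      (∀ i' < q, i' ≠ j → dg n (st (i + 1)) i' = dg n (st i) i') ∧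
      (∀ i' < q, dg n (st i) i' < n → Kr n r (dg n (st i) i') (dg n (st (i + 1)) j)) ∧
      (dg n (st i) j < n → r (dg n (st i) j) (dg n (st (i + 1)) j)) := by
    intro i
    by_cases hi : i < M
    · obtain ⟨j, hj, h1⟩ := (hst i hi).1
      exact ⟨j, fun _ => ⟨hj, h1⟩⟩
    · exact ⟨0, fun h => absurd h hi⟩
  choose c hc using hc
  obtain ⟨y, hy⟩ : ∃ y : ℕ → ℕ, ∀ i, y i = dg n (st (i + 1)) (c i) := ⟨_, fun _ => rfl⟩
  have hL : ∀ j < q, ∀ x, Lq n r q M j x ↔ ∃ i < M, c i = j ∧ y i = x := by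
    intro j hj x
    rw [lq_iff hM hs0 h0 hst0 hst1 hst]
    constructor
    · rintro ⟨_, i, hi, h1, h2⟩
      obtain ⟨_, _, h3, _, _⟩ := hc i hi
      have h4 : j = c i := by
        by_contra hne
        rw [h3 j hj hne] at h1
        exact h2 h1
      exact ⟨i, hi, h4.symm, by rw [hy, ← h4]; exact h1⟩
    · rintro ⟨i, hi, h1, h2⟩
      obtain ⟨hcq, h3, _, h4, _⟩ := hc i hi
      rw [← hy] at h3 h4
      rw [h2] at h3
      refine ⟨h3, i, hi, ?_, ?_⟩
      · rw [← h1, ← hy]
        exact h2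
      · intro h5
        have h6 := h4 j hj (by rw [h5]; exact h3)
        rw [h5, h2] at h6
        exact kr_irr h6
  have hinc1 : ∀ i, i + 1 < M → Kr n r (y i) (y (i + 1)) := by
    intro i hi
    obtain ⟨hcq, h3, _, _, _⟩ := hc i (by omega)
    obtain ⟨_, _, _, h4, _⟩ := hc (i + 1) hi
    rw [← hy] at h3 h4
    have h5 := h4 (c i) hcq
    rw [← hy] at h5
    exact h5 h3
  have hinc : ∀ d i, i + d + 1 < M → Kr n r (y i) (y (i + d + 1)) := by
    intro d
    induction d with
    | zero =>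
      intro i hi
      exact hinc1 i hi
    | succ d ih =>
      intro i hi
      exact kr_trans (ih i (by omega)) (hinc1 (i + d + 1) hi)
  have hlt : ∀ a b, a < b → b < M → Kr n r (y a) (y b) := by
    intro a b hab hb
    have h1 := hinc (b - a - 1) a (by omega)
    have h2 : a + (b - a - 1) + 1 = b := by omega
    rwa [h2] at h1
  have hinj : ∀ a b, a < M → b < M → y a = y b → a = b := by
    intro a b ha hb hab
    rcases Nat.lt_trichotomy a b with h | h | h
    · have h1 := hlt a b h hb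
      rw [hab] at h1
      exact absurd h1 kr_irr
    · exact h
    · have h1 := hlt b a h ha
      rw [hab] at h1
      exact absurd h1 kr_irr
  have hch : ∀ k, k ≤ M → ∀ i < k, dg n (st k) (c i) < n ∧
      (y i = dg n (st k) (c i) ∨ r (y i) (dg n (st k) (c i))) := by
    intro k
    induction k with
    | zero =>
      intro _ i hi
      omega
    | succ k ih =>
      intro hk i hi
      obtain ⟨_, h3, h4, _, h5⟩ := hc k (by omega)
      by_cases hki : c k = c i
      · rw [← hki]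
        refine ⟨h3, ?_⟩
        by_cases hik : i = k
        · rw [hik]
          exact Or.inl (hy k)
        · obtain ⟨h6, h7⟩ := ih (by omega) i (by omega)
          rw [← hki] at h6 h7
          have h8 := h5 h6
          rcases h7 with h7 | h7
          · rw [h7]
            exact Or.inr h8
          · exact Or.inr (hr.trans _ _ _ h7 h8)
      · have hik : i ≠ k := by
          intro h6
          rw [h6] at hki
          exact hki rfl
        have h6 := h4 (c i) (hc i (by omega)).1 (fun h => hki h.symm)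
        rw [h6]
        exact ih (by omega) i (by omega)
  have hrel : ∀ a b, a < b → b < M → c a = c b → r (y a) (y b) := by
    intro a b hab hb hcc
    obtain ⟨h1, h2⟩ := hch b (by omega) a hab
    obtain ⟨_, _, _, _, h5⟩ := hc b hb
    rw [hcc] at h1 h2
    have h6 := h5 h1
    rw [← hy] at h6
    rcases h2 with h2 | h2
    · rw [h2]
      exact h6
    · exact hr.trans _ _ _ h2 h6
  refine ⟨?_, ?_, ?_⟩
  · intro j hj x x' hx hx' hne
    obtain ⟨a, ha, ha1, ha2⟩ := (hL j hj x).1 hx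
    obtain ⟨b, hb, hb1, hb2⟩ := (hL j hj x').1 hx'
    rcases Nat.lt_trichotomy a b with h | h | h
    · left
      rw [← ha2, ← hb2]
      exact hrel a b h hb (by rw [ha1, hb1])
    · exact absurd (by rw [← ha2, ← hb2, h]) hne
    · right
      rw [← ha2, ← hb2]
      exact hrel b a h ha (by rw [ha1, hb1])
  · intro i hi j hj x hx hx'
    obtain ⟨a, ha, ha1, ha2⟩ := (hL i hi x).1 hx
    obtain ⟨b, hb, hb1, hb2⟩ := (hL j hj x).1 hx'
    have h1 := hinj a b ha hb (by rw [ha2, hb2])
    rw [← ha1, ← hb1, h1]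
  · have h1 : ∀ j ∈ range q, ((range n).filter (fun x => Lq n r q M j x)).card =
        ((range M).filter (fun i => c i = j)).card := by
      intro j hj
      have h2 : (range n).filter (fun x => Lq n r q M j x) =
          ((range M).filter (fun i => c i = j)).image y := by
        ext x
        rw [Finset.mem_filter, Finset.mem_image, hL j (Finset.mem_range.1 hj)]
        constructor
        · rintro ⟨_, i, hi, hi1, hi2⟩
          exact ⟨i, Finset.mem_filter.2 ⟨Finset.mem_range.2 hi, hi1⟩, hi2⟩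
        · rintro ⟨i, hi, hi2⟩
          rw [Finset.mem_filter, Finset.mem_range] at hi
          refine ⟨?_, i, hi.1, hi.2, hi2⟩
          rw [Finset.mem_range, ← hi2, hy]
          exact (hc i hi.1).2.1
      rw [h2, Finset.card_image_of_injOn]
      intro a ha b hb hab
      rw [Finset.mem_coe, Finset.mem_filter, Finset.mem_range] at ha hb
      exact hinj a b ha.1 hb.1 hab
    rw [Finset.sum_congr rfl h1]
    have h3 := Finset.card_eq_sum_card_fiberwise (f := c) (s := range M) (t := range q) (by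
      intro i hi
      rw [Finset.mem_coe, Finset.mem_range] at hi ⊢
      exact (hc i hi).1)
    rw [Finset.card_range] at h3
    exact h3.symm

open Classical in
theorem lab {n q M : ℕ} {r : ℕ → ℕ → Prop} (hr : SO r) (hb : ∀ x y, r x y → x < n ∧ y < n)
    (C : ℕ → Finset ℕ) (hC : ∀ j < q, C j ⊆ range n)
    (hC' : ∀ j < q, ∀ x ∈ C j, ∀ y ∈ C j, x ≠ y → r x y ∨ r y x)
    (hC'' : ∀ i < q, ∀ j < q, i ≠ j → Disjoint (C i) (C j))
    (hM : M ≤ ∑ j ∈ range q, (C j).card) :
    (∀ j < q, ∀ x y, Lq n r q M j x → Lq n r q M j y → x ≠ y → r x y ∨ r y x) ∧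
    (∀ i < q, ∀ j < q, ∀ x, Lq n r q M i x → Lq n r q M j x → i = j) ∧
    ∑ j ∈ range q, ((range n).filter (fun x => Lq n r q M j x)).card = M := by
  have hMn := m_le C hC hC'' hM
  obtain ⟨s0, hs0, h0⟩ := code_ex n q (fun _ => n) (fun _ _ => le_rfl)
  exact lab_path hr hMn hs0 h0 (gq_start hr hb C hC hC' hC'' hM hs0 h0)

end Pool.Agent.P49q
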