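import Pool.Agent.Lib.P49q.Snd
import Pool.Agent.Lib.P49q.Lab
import Pool.Agent.Lib.P49k.Acc

/-!
# Module P49q.Acc: a schedule and long disjoint chains give codes

PROOF SKETCH. `σ` a schedule with deadline `D < n` on `q + 2` processors, `M = q * D - k`, `L j` the canonical chains (`lab`), so
`(L j).card ≤ D` (different elements of a chain are in different slots) and `∑ j, (D - (L j).card) = q * D - M ≤ k`.
`Z j`: the slots `u < D` without an element of `L j`, `(Z j).card = D - (L j).card ≤ k`. `z`: the digits `j * k + i`, `i < k`, list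
`Z j`, each element once, the others are `n` (`code_ex` for `q * k` digits). For a slot `u < D` let `J u` be the set of the `j < q` with
`u ∈ Z j` and `X u` the tasks in slot `u` outside of all `L j`: `(X u).card + (q - (J u).card) ≤ q + 2`. The digit of `e` at the place
of `u ∈ Z j` is the element number `((J u).filter (· < j)).card` of `X u` (in increasing order), or `n` if there is none. So at most
two tasks in slot `u` are not fixed, at most `q` are fixed. For `x ∈ L j`: the number of predecessors of `x` in `L j` equals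
`iq n k z j (σ x)` (the elements of `L j` below `x` are in the slots before `σ x` which are not in `Z j`). Apply `sd_okQ`.
-/

set_option autoImplicit false

namespace Pool.Agent.P49q

open Finset Pool.Agent.P99b9fe Pool.Agent.P49d Pool.Agent.P49k

/-- A list of the elements of a set with at most `k` elements. -/
theorem enum_ex (n : ℕ) : ∀ (k : ℕ) (Z : Finset ℕ), Z.card ≤ k →
    ∃ g : ℕ → ℕ, (∀ i < k, g i = n ∨ g i ∈ Z) ∧ ∀ u ∈ Z, ∃ i < k, g i = u := by
  intro k
  induction k with
  | zero =>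
    intro Z hZ
    have h0 : Z = ∅ := Finset.card_eq_zero.1 (by omega)
    subst h0
    exact ⟨fun _ => n, fun i hi => absurd hi (Nat.not_lt_zero i),
      fun u hu => absurd hu (Finset.notMem_empty u)⟩
  | succ k ih =>
    intro Z hZ
    rcases Z.eq_empty_or_nonempty with rfl | ⟨x, hx⟩
    · exact ⟨fun _ => n, fun i _ => Or.inl rfl, fun u hu => absurd hu (Finset.notMem_empty u)⟩
    · have h1 : (Z.erase x).card ≤ k := by
        rw [Finset.card_erase_of_mem hx]
        omega
      obtain ⟨g, hg1, hg2⟩ := ih _ h1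
      refine ⟨fun i => if i = k then x else g i, ?_, ?_⟩
      · intro i hi
        by_cases hik : i = k
        · right
          simpa [hik] using hx
        · rcases hg1 i (by omega) with h | h
          · left
            simpa [hik] using h
          · right
            simpa [hik] using Finset.mem_of_mem_erase h
      · intro u hu
        by_cases hux : u = x
        · exact ⟨k, by omega, by simp [hux]⟩
        · obtain ⟨i, hi, hgi⟩ := hg2 u (Finset.mem_erase.2 ⟨hux, hu⟩)
          exact ⟨i, by omega, by simp [show i ≠ k by omega, hgi]⟩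

open Classical in
/-- All but two elements of `X` are values. -/
theorem asg_ex (n : ℕ) (J : Finset ℕ) : ∀ X : Finset ℕ, X.card ≤ J.card + 2 →
    ∃ f : ℕ → ℕ, (∀ j, f j = n ∨ f j ∈ X) ∧
      (X.filter (fun x => ∀ j ∈ J, f j ≠ x)).card ≤ 2 := by
  induction J using Finset.induction_on with
  | empty =>
    intro X hX
    refine ⟨fun _ => n, fun j => Or.inl rfl, (Finset.card_filter_le _ _).trans ?_⟩
    simpa using hX
  | insert j J hj ih =>
    intro X hX
    rcases X.eq_empty_or_nonempty with rfl | ⟨x, hx⟩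
    · exact ⟨fun _ => n, fun j => Or.inl rfl, by simp⟩
    · have h1 : (X.erase x).card ≤ J.card + 2 := by
        rw [Finset.card_erase_of_mem hx]
        rw [Finset.card_insert_of_notMem hj] at hX
        omega
      obtain ⟨f, hf1, hf2⟩ := ih _ h1
      refine ⟨Function.update f j x, ?_, ?_⟩
      · intro i
        by_cases hij : i = j
        · right
          subst hij
          rw [Function.update_self]
          exact hx
        · rw [Function.update_of_ne hij]
          rcases hf1 i with h | h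
          · exact Or.inl h
          · exact Or.inr (Finset.mem_of_mem_erase h)
      · refine le_trans (Finset.card_le_card ?_) hf2
        intro y hy
        rw [Finset.mem_filter] at hy ⊢
        have h2 : x ≠ y := by
          have := hy.2 j (Finset.mem_insert_self _ _)
          rwa [Function.update_self] at this
        refine ⟨Finset.mem_erase.2 ⟨h2.symm, hy.1⟩, ?_⟩
        intro i hi
        have h3 := hy.2 i (Finset.mem_insert_of_mem hi)
        have h4 : i ≠ j := by
          rintro rfl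
          exact hj hi
        rwa [Function.update_of_ne h4] at h3

theorem accQ_of {n q k D : ℕ} {r : ℕ → ℕ → Prop} (hr : SO r)
    (hb : ∀ x y, r x y → x < n ∧ y < n) (hD : D < n)
    (C : ℕ → Finset ℕ) (hC : ∀ j < q, C j ⊆ range n)
    (hC' : ∀ j < q, ∀ x ∈ C j, ∀ y ∈ C j, x ≠ y → r x y ∨ r y x)
    (hC'' : ∀ i < q, ∀ j < q, i ≠ j → Disjoint (C i) (C j))
    (hk : q * D ≤ (∑ j ∈ range q, (C j).card) + k) (h : Sd r (range n) (q + 2) D) :
    AccQ n r q k D := by
  classical
  obtain ⟨σ, hσ1, hσ2, hσ3⟩ := h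
  have hσD : ∀ x < n, σ x < D := fun x hx => hσ2 x (mem_range.2 hx)
  have hσr : ∀ x < n, ∀ y < n, r x y → σ x < σ y := fun x hx y hy hxy =>
    hσ3 x (mem_range.2 hx) y (mem_range.2 hy) hxy
  obtain ⟨M, hM⟩ : ∃ M, M = q * D - k := ⟨_, rfl⟩
  obtain ⟨hL1, hL2, hL3⟩ := lab (M := M) hr hb C hC hC' hC'' (by omega)
  obtain ⟨L, hL⟩ : ∃ L : ℕ → Finset ℕ, L = fun j => (range n).filter (fun x => Lq n r q M j x) :=
    ⟨_, rfl⟩
  have hLm : ∀ j x, x ∈ L j ↔ x < n ∧ Lq n r q M j x := by
    intro j x
    rw [hL]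
    simp
  have hLn : ∀ j x, Lq n r q M j x → x < n := fun j x h => h.1
  have hLm' : ∀ j x, x ∈ L j ↔ Lq n r q M j x := fun j x =>
    ⟨fun h => ((hLm j x).1 h).2, fun h => (hLm j x).2 ⟨hLn j x h, h⟩⟩
  have hcmp : ∀ j < q, ∀ x ∈ L j, ∀ y ∈ L j, x ≠ y → r x y ∨ r y x := fun j hj x hx y hy hxy =>
    hL1 j hj x y ((hLm' j x).1 hx) ((hLm' j y).1 hy) hxy
  have hdis : ∀ i < q, ∀ j < q, ∀ x, x ∈ L i → x ∈ L j → i = j := fun i hi j hj x hx hy =>
    hL2 i hi j hj x ((hLm' i x).1 hx) ((hLm' j x).1 hy)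
  have hLx : ∀ j, ∀ x ∈ L j, x < n := fun j x hx => ((hLm j x).1 hx).1
  have hinj : ∀ j < q, ∀ x ∈ L j, ∀ y ∈ L j, σ x = σ y → x = y := by
    intro j hj x hx y hy hxy
    by_contra hne
    rcases hcmp j hj x hx y hy hne with h | h
    · have := hσr x (hLx j x hx) y (hLx j y hy) h
      omega
    · have := hσr y (hLx j y hy) x (hLx j x hx) h
      omega
  have hLsum : ∑ j ∈ range q, (L j).card = M := by
    rw [← hL3, hL]
  -- the slots without an element of the chain
  obtain ⟨Z, hZ⟩ : ∃ Z : ℕ → Finset ℕ, Z = fun j => (range D).filter (fun u => ∀ x ∈ L j, σ x ≠ u) :=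
    ⟨_, rfl⟩
  have hZm : ∀ j u, u ∈ Z j ↔ u < D ∧ ∀ x ∈ L j, σ x ≠ u := by
    intro j u
    rw [hZ]
    simp
  have hZcard : ∀ j < q, (Z j).card + (L j).card = D := by
    intro j hj
    have h1 : (L j).card = ((range D).filter (fun u => ¬ ∀ x ∈ L j, σ x ≠ u)).card := by
      rw [← Finset.card_image_of_injOn (s := L j) (f := σ)
        (fun x hx y hy hxy => hinj j hj x hx y hy hxy)]
      congr 1
      ext u
      simp only [Finset.mem_image, Finset.mem_filter, Finset.mem_range, not_forall, not_not,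
        exists_prop]
      constructor
      · rintro ⟨x, hx, rfl⟩
        exact ⟨hσD x (hLx j x hx), x, hx, rfl⟩
      · rintro ⟨-, x, hx, hxu⟩
        exact ⟨x, hx, hxu⟩
    rw [h1, hZ]
    have h2 := Finset.card_filter_add_card_filter_not (s := range D) (fun u => ∀ x ∈ L j, σ x ≠ u)
    rw [Finset.card_range] at h2
    exact h2
  have hZsum : ∑ j ∈ range q, (Z j).card + M = q * D := by
    rw [← hLsum, ← Finset.sum_add_distrib, Finset.sum_congr rfl
      (fun j hj => hZcard j (mem_range.1 hj)), Finset.sum_const, Finset.card_range, smul_eq_mul]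
  have hZk : ∀ j < q, (Z j).card ≤ k := by
    intro j hj
    have h1 : (Z j).card ≤ ∑ j ∈ range q, (Z j).card :=
      Finset.single_le_sum (f := fun j => (Z j).card) (fun i _ => Nat.zero_le _) (mem_range.2 hj)
    omega
  have hZn : ∀ j, ∀ u ∈ Z j, u < n := fun j u hu => lt_trans ((hZm j u).1 hu).1 hD
  -- the enumerations
  have hge : ∀ j, ∃ g : ℕ → ℕ, j < q → (∀ i < k, g i = n ∨ g i ∈ Z j) ∧ ∀ u ∈ Z j, ∃ i < k, g i = u := by
    intro j
    by_cases hj : j < q
    · obtain ⟨g, hg⟩ := enum_ex n k (Z j) (hZk j hj)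
      exact ⟨g, fun _ => hg⟩
    · exact ⟨fun _ => n, fun h => absurd h hj⟩
  choose g hg using hge
  -- the other tasks of a slot
  obtain ⟨X, hX⟩ : ∃ X : ℕ → Finset ℕ, X = fun u => (range n).filter
    (fun x => σ x = u ∧ ¬ ∃ j < q, x ∈ L j) := ⟨_, rfl⟩
  have hXm : ∀ u x, x ∈ X u ↔ x < n ∧ σ x = u ∧ ¬ ∃ j < q, x ∈ L j := by
    intro u x
    rw [hX]
    simp only [Finset.mem_filter, Finset.mem_range]
  obtain ⟨J, hJ⟩ : ∃ J : ℕ → Finset ℕ, J = fun u => (range q).filter (fun j => u ∈ Z j) := ⟨_, rfl⟩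
  have hJm : ∀ u j, j ∈ J u ↔ j < q ∧ u ∈ Z j := by
    intro u j
    rw [hJ]
    simp
  have hXJ : ∀ u < D, (X u).card ≤ (J u).card + 2 := by
    intro u hu
    have h1 : (X u).card + ((range n).filter (fun x => σ x = u ∧ ∃ j < q, x ∈ L j)).card ≤ q + 2 := by
      refine le_trans (le_of_eq ?_) (hσ1 u)
      rw [← Finset.card_union_of_disjoint]
      · congr 1
        ext x
        rw [Finset.mem_union, hXm, Finset.mem_filter, Finset.mem_filter, Finset.mem_range]
        tauto
      · rw [Finset.disjoint_left]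
        intro x hx hx'
        exact ((hXm u x).1 hx).2.2 (Finset.mem_filter.1 hx').2.2
    have h2 : ((range q).filter (fun j => ¬ u ∈ Z j)).card ≤
        ((range n).filter (fun x => σ x = u ∧ ∃ j < q, x ∈ L j)).card := by
      refine Finset.card_le_card_of_forall_subsingleton (fun j x => x ∈ L j) ?_ ?_
      · intro j hj
        rw [Finset.mem_filter, Finset.mem_range, hZm] at hj
        have h3 : ∃ x ∈ L j, σ x = u := by
          by_contra hcon
          push Not at hcon
          exact hj.2 ⟨hu, hcon⟩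
        obtain ⟨x, hx, hxu⟩ := h3
        exact ⟨x, Finset.mem_filter.2 ⟨mem_range.2 (hLx j x hx), hxu, j, hj.1, hx⟩, hx⟩
      · intro x _ i hi j hj
        have hi1 := (Finset.mem_filter.1 hi.1).1
        have hj1 := (Finset.mem_filter.1 hj.1).1
        exact hdis i (mem_range.1 hi1) j (mem_range.1 hj1) x hi.2 hj.2
    have h3 := Finset.card_filter_add_card_filter_not (s := range q) (fun j => u ∈ Z j)
    rw [Finset.card_range] at h3
    have h4 : (J u).card = ((range q).filter (fun j => u ∈ Z j)).card := by rw [hJ]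
    omega
  have hae : ∀ u, ∃ f : ℕ → ℕ, (∀ j, f j = n ∨ f j ∈ X u) ∧
      (u < D → ((X u).filter (fun x => ∀ j ∈ J u, f j ≠ x)).card ≤ 2) := by
    intro u
    by_cases hu : u < D
    · obtain ⟨f, hf1, hf2⟩ := asg_ex n (J u) (X u) (hXJ u hu)
      exact ⟨f, hf1, fun _ => hf2⟩
    · exact ⟨fun _ => n, fun _ => Or.inl rfl, fun h => absurd h hu⟩
  choose a ha1 ha2 using hae
  -- the codes
  have hdiv : ∀ j < q, ∀ i < k, j * k + i < q * k ∧ (j * k + i) / k = j ∧ (j * k + i) % k = i := by
    intro j hj i hi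
    have hk0 : 0 < k := by omega
    refine ⟨?_, ?_, ?_⟩
    · have h1 : (j + 1) * k ≤ q * k := Nat.mul_le_mul_right k hj
      have h2 : (j + 1) * k = j * k + k := by ring
      omega
    · rw [Nat.add_comm, Nat.add_mul_div_right _ _ hk0, Nat.div_eq_of_lt hi, zero_add]
    · rw [Nat.add_comm, Nat.add_mul_mod_self_right, Nat.mod_eq_of_lt hi]
  obtain ⟨z, hz1, hz2⟩ := code_ex n (q * k) (fun t => g (t / k) (t % k)) (by
    intro t ht
    have hk0 : 0 < k := by
      rcases Nat.eq_zero_or_pos k with h0 | h0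
      · rw [h0, Nat.mul_zero] at ht
        omega
      · exact h0
    have h1 : t / k < q := (Nat.div_lt_iff_lt_mul hk0).2 ht
    rcases (hg (t / k) h1).1 (t % k) (Nat.mod_lt _ hk0) with h2 | h2
    · exact le_of_eq h2
    · exact (hZn _ _ h2).le)
  obtain ⟨e, he1, he2⟩ := code_ex n (q * k) (fun t => a (g (t / k) (t % k)) (t / k)) (by
    intro t ht
    rcases ha1 (g (t / k) (t % k)) (t / k) with h2 | h2
    · exact le_of_eq h2
    · exact ((hXm _ _).1 h2).1.le)
  have hz : ∀ j < q, ∀ i < k, dg n z (j * k + i) = g j i := by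
    intro j hj i hi
    obtain ⟨h1, h2, h3⟩ := hdiv j hj i hi
    have h4 := hz2 _ h1
    simp only [h2, h3] at h4
    exact h4
  have he : ∀ j < q, ∀ i < k, dg n e (j * k + i) = a (g j i) j := by
    intro j hj i hi
    obtain ⟨h1, h2, h3⟩ := hdiv j hj i hi
    have h4 := he2 _ h1
    simp only [h2, h3] at h4
    exact h4
  have hZq : ∀ j < q, ∀ u < n, (Zq n k z j u ↔ u ∈ Z j) := by
    intro j hj u hu
    constructor
    · rintro ⟨i, hi, h1⟩
      rw [hz j hj i hi] at h1
      rcases (hg j hj).1 i hi with h2 | h2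
      · omega
      · rwa [h1] at h2
    · intro h1
      obtain ⟨i, hi, h2⟩ := (hg j hj).2 u h1
      exact ⟨i, hi, by rw [hz j hj i hi, h2]⟩
  have hEq : ∀ j < q, ∀ x, ∀ u < n, (Eq n k z e j x u ↔ u ∈ Z j ∧ a u j = x) := by
    intro j hj x u hu
    constructor
    · rintro ⟨i, hi, h1, h2⟩
      rw [hz j hj i hi] at h1
      rw [he j hj i hi, h1] at h2
      refine ⟨?_, h2⟩
      rcases (hg j hj).1 i hi with h3 | h3
      · omega
      · rwa [h1] at h3
    · rintro ⟨h1, h2⟩
      obtain ⟨i, hi, h3⟩ := (hg j hj).2 u h1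
      exact ⟨i, hi, by rw [hz j hj i hi, h3], by rw [he j hj i hi, h3, h2]⟩
  -- the number of an element in its chain
  have hiq : ∀ j < q, ∀ u < D, iq n k z j u = ((L j).filter (fun y => σ y < u)).card := by
    intro j hj u hu
    rw [iq, ← Finset.card_image_of_injOn (s := (L j).filter (fun y => σ y < u)) (f := σ)
      (fun x hx y hy hxy => hinj j hj x (Finset.mem_filter.1 hx).1 y (Finset.mem_filter.1 hy).1 hxy)]
    congr 1
    ext v
    simp only [Finset.mem_image, Finset.mem_filter, Finset.mem_range]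
    constructor
    · rintro ⟨h1, h2⟩
      rw [hZq j hj v (by omega), hZm] at h2
      have h3 : ∃ x ∈ L j, σ x = v := by
        by_contra hcon
        push Not at hcon
        exact h2 ⟨by omega, hcon⟩
      obtain ⟨x, hx, hxv⟩ := h3
      exact ⟨x, ⟨hx, by omega⟩, hxv⟩
    · rintro ⟨x, ⟨hx, h1⟩, rfl⟩
      refine ⟨h1, ?_⟩
      rw [hZq j hj _ (by omega), hZm]
      rintro ⟨-, h2⟩
      exact h2 x hx rfl
  have hpq : ∀ j < q, ∀ x ∈ L j, pq n r q M j x = ((L j).filter (fun y => σ y < σ x)).card := by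
    intro j hj x hx
    rw [pq]
    congr 1
    ext y
    simp only [Finset.mem_filter, Finset.mem_range]
    constructor
    · rintro ⟨h1, h2, h3⟩
      exact ⟨(hLm' j y).2 h2, hσr y h1 x (hLx j x hx) h3⟩
    · rintro ⟨h1, h2⟩
      refine ⟨hLx j y h1, (hLm' j y).1 h1, ?_⟩
      have hne : y ≠ x := by
        rintro rfl
        omega
      rcases hcmp j hj y h1 x hx hne with h3 | h3
      · exact h3
      · have := hσr x (hLx j x hx) y (hLx j y h1) h3
        omega
  have hmono : ∀ j, ∀ x ∈ L j, ∀ t, σ x < t →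
      ((L j).filter (fun y => σ y < σ x)).card < ((L j).filter (fun y => σ y < t)).card := by
    intro j x hx t ht
    refine Finset.card_lt_card ⟨?_, ?_⟩
    · intro y hy
      rw [Finset.mem_filter] at hy ⊢
      exact ⟨hy.1, by omega⟩
    · intro hsub
      have h1 := hsub (Finset.mem_filter.2 ⟨hx, ht⟩ : x ∈ (L j).filter (fun y => σ y < t))
      have h2 := (Finset.mem_filter.1 h1).2
      omega
  have hF : ∀ x < n, ∀ u < n, (Fq n r q k D z e x u ↔ u < D ∧ ∃ j < q,
      (x ∈ L j ∧ σ x = u ∧ u ∉ Z j) ∨ (u ∈ Z j ∧ a u j = x)) := by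
    intro x hx u hu
    rw [Fq, ← hM]
    constructor
    · rintro ⟨-, -, huD, j, hj, h1 | h1⟩
      · obtain ⟨h2, h3, h4⟩ := h1
        refine ⟨huD, j, hj, Or.inl ?_⟩
        have h2' : u ∉ Z j := fun h5 => h2 ((hZq j hj u hu).2 h5)
        have hxL := (hLm' j x).2 h3
        have h6 : ∃ x' ∈ L j, σ x' = u := by
          by_contra hcon
          push Not at hcon
          exact h2' ((hZm j u).2 ⟨huD, hcon⟩)
        obtain ⟨x', hx', hx'u⟩ := h6
        rw [hpq j hj x hxL, hiq j hj u huD] at h4
        refine ⟨hxL, ?_, h2'⟩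
        rcases lt_trichotomy (σ x) u with h7 | h7 | h7
        · have := hmono j x hxL u h7
          omega
        · exact h7
        · have := hmono j x' hx' (σ x) (by omega)
          rw [hx'u] at this
          omega
      · exact ⟨huD, j, hj, Or.inr ((hEq j hj x u hu).1 h1)⟩
    · rintro ⟨huD, j, hj, h1 | h1⟩
      · obtain ⟨h2, h3, h4⟩ := h1
        refine ⟨hx, hu, huD, j, hj, Or.inl ⟨fun h5 => h4 ((hZq j hj u hu).1 h5), (hLm' j x).1 h2, ?_⟩⟩
        rw [hpq j hj x h2, hiq j hj u huD, h3]
      · exact ⟨hx, hu, huD, j, hj, Or.inr ((hEq j hj x u hu).2 h1)⟩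
  refine ⟨z, hz1, e, he1, sd_okQ hD.le σ hσD hσr ?_ ?_ ?_⟩
  · intro x hx u hu h1
    obtain ⟨-, j, hj, h2 | h2⟩ := (hF x hx u hu).1 h1
    · exact h2.2.1
    · rcases ha1 u j with h3 | h3
      · omega
      · rw [h2.2] at h3
        exact ((hXm u x).1 h3).2.1
  · intro u hu
    have h1 : ((range n).filter (fun x => Fq n r q k D z e x u)).card ≤ (range q).card := by
      refine Finset.card_le_card_of_forall_subsingleton
        (fun x j => (x ∈ L j ∧ σ x = u ∧ u ∉ Z j) ∨ (u ∈ Z j ∧ a u j = x)) ?_ ?_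
      · intro x hx
        rw [Finset.mem_filter, Finset.mem_range] at hx
        obtain ⟨-, j, hj, h2⟩ := (hF x hx.1 u hu).1 hx.2
        exact ⟨j, mem_range.2 hj, h2⟩
      · intro j hj x hx y hy
        rcases hx.2 with h2 | h2 <;> rcases hy.2 with h3 | h3
        · exact hinj j (mem_range.1 hj) x h2.1 y h3.1 (by rw [h2.2.1, h3.2.1])
        · exact absurd h3.1 h2.2.2
        · exact absurd h2.1 h3.2.2
        · rw [← h2.2, ← h3.2]
    rwa [Finset.card_range] at h1
  · intro u hu
    by_cases huD : u < D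
    · refine le_trans (Finset.card_le_card ?_) (ha2 u huD)
      intro x hx
      rw [Finset.mem_filter, Finset.mem_range] at hx
      obtain ⟨hx1, hx2, hx3⟩ := hx
      rw [hF x hx1 u hu] at hx3
      rw [Finset.mem_filter, hXm]
      refine ⟨⟨hx1, hx2, ?_⟩, ?_⟩
      · rintro ⟨j, hj, hxj⟩
        refine hx3 ⟨huD, j, hj, Or.inl ⟨hxj, hx2, ?_⟩⟩
        rw [hZm]
        rintro ⟨-, h4⟩
        exact h4 x hxj hx2
      · intro j hj h4
        rw [hJm] at hj
        exact hx3 ⟨huD, j, hj.1, Or.inr ⟨hj.2, h4⟩⟩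
    · have h1 : (range n).filter (fun x => σ x = u ∧ ¬ Fq n r q k D z e x u) = ∅ := by
        rw [Finset.filter_eq_empty_iff]
        intro x hx h2
        have := hσD x (mem_range.1 hx)
        omega
      rw [h1]
      simp

end Pool.Agent.P49q
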