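import Pool.Agent.Lib.P49q.PLab

/-!
# Module P49q.PFq: polynomial time, the fixed tasks

PROOF SKETCH. `poly_mkR`; `∃ j < q` is a disjunction over constants `j` (induction on the bound, `PolyP.or`); `Zq`, `Eq`
are quantifiers over constants `i < k`; `iq`, `pq` by `n_card`; `poly_lq`.
-/

set_option autoImplicit false

namespace Pool.Agent.P49q

open Finset Pool.Agent.P99b9fe Pool.Agent.Lib.PolyTime Pool.Agent.Lib.Pa7c826
open Pool.Agent.Lib.P8e91ed.PT Pool.Agent.P49d Pool.Agent.P49k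

variable {α : Type} {D : α → Prop} {ctx : List (α → List Bool)} {n d z e : α → ℕ}
  {t : α → List Bool}

namespace PFqAux

theorem poly_dgc (hn : PolyN D ctx n) (hz : PolyN D ctx z) (i : ℕ) :
    PolyN D ctx (fun a => dg (n a) (z a) i) :=
  n_mod (n_div hz (PolyN.pow hn.succ i)) hn.succ

theorem poly_zq {u : α → ℕ} (k j : ℕ) (hn : PolyN D ctx n) (hz : PolyN D ctx z)
    (hu : PolyN D ctx u) : PolyP D ctx (fun a => Zq (n a) k (z a) j (u a)) := by
  refine (p_any (N := k) (P := fun a i => dg (n a) (z a) (j * k + (i : ℕ)) = u a)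
    fun i => PolyP.eq (poly_dgc hn hz _) hu).congr (fun a _ => ?_)
  constructor
  · rintro ⟨i, hi⟩
    exact ⟨i, i.2, hi⟩
  · rintro ⟨i, hi, h⟩
    exact ⟨⟨i, hi⟩, h⟩

theorem poly_eq {x u : α → ℕ} (k j : ℕ) (hn : PolyN D ctx n) (hz : PolyN D ctx z)
    (he : PolyN D ctx e) (hx : PolyN D ctx x) (hu : PolyN D ctx u) :
    PolyP D ctx (fun a => Eq (n a) k (z a) (e a) j (x a) (u a)) := by
  refine (p_any (N := k) (P := fun a i => dg (n a) (z a) (j * k + (i : ℕ)) = u a ∧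
      dg (n a) (e a) (j * k + (i : ℕ)) = x a)
    fun i => (PolyP.eq (poly_dgc hn hz _) hu).and (PolyP.eq (poly_dgc hn he _) hx)).congr
    (fun a _ => ?_)
  constructor
  · rintro ⟨i, hi⟩
    exact ⟨i, i.2, hi⟩
  · rintro ⟨i, hi, h⟩
    exact ⟨⟨i, hi⟩, h⟩

theorem poly_iq {u : α → ℕ} (k j : ℕ) (hn : PolyN D ctx n) (hz : PolyN D ctx z)
    (hu : PolyN D ctx u) : PolyN D ctx (fun a => iq (n a) k (z a) j (u a)) := by
  unfold iq
  exact n_card (n := u) (P := fun a v => ¬ Zq (n a) k (z a) j v) hu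
    (poly_zq k j (nU hn) (nU hz) nL).not

theorem poly_pq {M x : α → ℕ} (q j : ℕ) (hj : j < q) (hn : PolyN D ctx n)
    (ht : PolyC D ctx t) (hM : PolyN D ctx M) (hx : PolyN D ctx x) :
    PolyN D ctx (fun a => pq (n a) (rT (n a) (t a)) q (M a) j (x a)) := by
  unfold pq
  exact n_card (n := n)
    (P := fun a y => Lq (n a) (rT (n a) (t a)) q (M a) j y ∧ rT (n a) (t a) y (x a)) hn
    ((poly_lq q j hj (nU hn) (cU ht) (nU hM) nL).and (poly_rT (nU hn) (cU ht) nL (nU hx)))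

theorem poly_body {x u : α → ℕ} (q k j : ℕ) (hj : j < q) (hn : PolyN D ctx n)
    (ht : PolyC D ctx t) (hd : PolyN D ctx d) (hz : PolyN D ctx z) (he : PolyN D ctx e)
    (hx : PolyN D ctx x) (hu : PolyN D ctx u) :
    PolyP D ctx (fun a => (¬ Zq (n a) k (z a) j (u a) ∧
      Lq (n a) (rT (n a) (t a)) q (q * d a - k) j (x a) ∧
      pq (n a) (rT (n a) (t a)) q (q * d a - k) j (x a) = iq (n a) k (z a) j (u a)) ∨
        Eq (n a) k (z a) (e a) j (x a) (u a)) := by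
  have hM : PolyN D ctx (fun a => q * d a - k) :=
    Pool.Agent.Lib.Pa7c826.PolyN.sub ((PolyN.const q).mul hd) (PolyN.const k)
  exact ((poly_zq k j hn hz hu).not.and ((poly_lq q j hj hn ht hM hx).and
    (PolyP.eq (poly_pq q j hj hn ht hM hx) (poly_iq k j hn hz hu)))).or
      (poly_eq k j hn hz he hx hu)

end PFqAux

open PFqAux

theorem poly_fq (q k : ℕ) (hn : PolyN D ctx n) (ht : PolyC D ctx t) (hd : PolyN D ctx d)
    (hz : PolyN D ctx z) (he : PolyN D ctx e) :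
    ∃ F : α → List Bool, PolyC D ctx F ∧
      ∀ a, D a → rT (n a) (F a) = Fq (n a) (rT (n a) (t a)) q k (d a) (z a) (e a) := by
  have n2 : PolyN (Dx (Dx D n) (fun p => n p.1)) (cx (cx ctx)) (fun p => n p.1.1) := nU (nU hn)
  have t2 : PolyC (Dx (Dx D n) (fun p => n p.1)) (cx (cx ctx)) (fun p => t p.1.1) := cU (cU ht)
  have d2 : PolyN (Dx (Dx D n) (fun p => n p.1)) (cx (cx ctx)) (fun p => d p.1.1) := nU (nU hd)
  have z2 : PolyN (Dx (Dx D n) (fun p => n p.1)) (cx (cx ctx)) (fun p => z p.1.1) := nU (nU hz)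
  have e2 : PolyN (Dx (Dx D n) (fun p => n p.1)) (cx (cx ctx)) (fun p => e p.1.1) := nU (nU he)
  have x2 : PolyN (Dx (Dx D n) (fun p => n p.1)) (cx (cx ctx)) (fun p => p.1.2) := nU nL
  have u2 : PolyN (Dx (Dx D n) (fun p => n p.1)) (cx (cx ctx)) (fun p => p.2) := nL
  have hb := p_any (N := q)
    (P := fun (p : (α × ℕ) × ℕ) j => (¬ Zq (n p.1.1) k (z p.1.1) (j : ℕ) p.2 ∧
      Lq (n p.1.1) (rT (n p.1.1) (t p.1.1)) q (q * d p.1.1 - k) (j : ℕ) p.1.2 ∧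
      pq (n p.1.1) (rT (n p.1.1) (t p.1.1)) q (q * d p.1.1 - k) (j : ℕ) p.1.2 =
        iq (n p.1.1) k (z p.1.1) (j : ℕ) p.2) ∨
        Eq (n p.1.1) k (z p.1.1) (e p.1.1) (j : ℕ) p.1.2 p.2)
    (fun j => poly_body q k j j.2 n2 t2 d2 z2 e2 x2 u2)
  obtain ⟨F, hF, hF'⟩ := poly_mkR (P := fun a x u => u < d a ∧
      ∃ j : Fin q, (¬ Zq (n a) k (z a) (j : ℕ) u ∧
        Lq (n a) (rT (n a) (t a)) q (q * d a - k) (j : ℕ) x ∧
        pq (n a) (rT (n a) (t a)) q (q * d a - k) (j : ℕ) x = iq (n a) k (z a) (j : ℕ) u) ∨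
          Eq (n a) k (z a) (e a) (j : ℕ) x u) hn ((PolyP.lt u2 d2).and hb)
  refine ⟨F, hF, fun a ha => ?_⟩
  funext x u
  refine propext ((hF' a ha x u).trans ?_)
  unfold Fq
  constructor
  · rintro ⟨h1, h2, h3, j, hj⟩
    exact ⟨h1, h2, h3, j, j.2, hj⟩
  · rintro ⟨h1, h2, h3, j, hj, h⟩
    exact ⟨h1, h2, h3, ⟨j, hj⟩, h⟩

end Pool.Agent.P49q
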