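import Pool.Agent.Lib.P49q.Defs
import Pool.Agent.Lib.P49d.PLv

/-!
# Module P49q.PLab: polynomial time, the canonical family of chains

PROOF SKETCH. As `P49d/PLv.lean`. Bottom up, each for arguments in `PolyN`: `pd` (`n_card`), `Kr`, `dg` (`PolyN.pow` for a constant
exponent), `St` (a disjunction over the numbers `j < q`), `Gq` (`poly_tab'` with the rule `gR`), `Nx`, `Vq` (`poly_tab'` with the
rule `vR`), `Lq`.
-/

set_option autoImplicit false

namespace Pool.Agent.P49q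

open Finset Pool.Agent.P99b9fe Pool.Agent.Lib.PolyTime Pool.Agent.Lib.Pa7c826
open Pool.Agent.Lib.P8e91ed.PT Pool.Agent.P49d Pool.Agent.P49k

variable {α : Type} {D : α → Prop} {ctx : List (α → List Bool)} {n M y : α → ℕ}
  {t : α → List Bool}

namespace PLabAux

variable {x s s' g : α → ℕ}

theorem poly_pd (hn : PolyN D ctx n) (ht : PolyC D ctx t) (hx : PolyN D ctx x) :
    PolyN D ctx (fun a => pd (n a) (rT (n a) (t a)) (x a)) := by
  classical
  exact n_card (n := n) (P := fun a z => rT (n a) (t a) z (x a)) hn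
    (poly_rT (nU hn) (cU ht) nL (nU hx))

theorem poly_kr (hn : PolyN D ctx n) (ht : PolyC D ctx t) (hx : PolyN D ctx x)
    (hy : PolyN D ctx y) :
    PolyP D ctx (fun a => Kr (n a) (rT (n a) (t a)) (x a) (y a)) := by
  have h1 := poly_pd hn ht hx
  have h2 := poly_pd hn ht hy
  exact (PolyP.lt h1 h2).or ((PolyP.eq h1 h2).and (PolyP.lt hx hy))

theorem poly_dg (j : ℕ) (hn : PolyN D ctx n) (hs : PolyN D ctx s) :
    PolyN D ctx (fun a => dg (n a) (s a) j) :=
  n_mod (n_div hs (PolyN.pow hn.succ j)) hn.succ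

/-- A bounded quantifier with a constant bound. -/
theorem poly_exc (q : ℕ) {P : α → ℕ → Prop} (h : ∀ j < q, PolyP D ctx (fun a => P a j)) :
    PolyP D ctx (fun a => ∃ j < q, P a j) := by
  refine (p_any (N := q) (P := fun a j => P a (j : ℕ)) fun j => h j j.2).congr (fun a _ => ?_)
  constructor
  · rintro ⟨j, hj⟩
    exact ⟨j, j.2, hj⟩
  · rintro ⟨j, hj, h'⟩
    exact ⟨⟨j, hj⟩, h'⟩

/-- A bounded quantifier with a constant bound. -/
theorem poly_fac (q : ℕ) {P : α → ℕ → Prop} (h : ∀ j < q, PolyP D ctx (fun a => P a j)) :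
    PolyP D ctx (fun a => ∀ j < q, P a j) := by
  refine (p_all (N := q) (P := fun a j => P a (j : ℕ)) fun j => h j j.2).congr (fun a _ => ?_)
  constructor
  · intro h' j hj
    exact h' ⟨j, hj⟩
  · intro h' j
    exact h' j j.2

theorem poly_st (q : ℕ) (hn : PolyN D ctx n) (ht : PolyC D ctx t) (hs : PolyN D ctx s)
    (hs' : PolyN D ctx s') :
    PolyP D ctx (fun a => St (n a) (rT (n a) (t a)) q (s a) (s' a)) := by
  refine poly_exc q (P := fun a j => dg (n a) (s' a) j < n a ∧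
    (∀ i < q, i ≠ j → dg (n a) (s' a) i = dg (n a) (s a) i) ∧
    (∀ i < q, dg (n a) (s a) i < n a →
      Kr (n a) (rT (n a) (t a)) (dg (n a) (s a) i) (dg (n a) (s' a) j)) ∧
    (dg (n a) (s a) j < n a → rT (n a) (t a) (dg (n a) (s a) j) (dg (n a) (s' a) j)))
    fun j hj => ?_
  refine (PolyP.lt (poly_dg j hn hs') hn).and (PolyP.and ?_ (PolyP.and ?_ ?_))
  · exact poly_fac q (P := fun a i => i ≠ j → dg (n a) (s' a) i = dg (n a) (s a) i)
      fun i _ => (p_const (i ≠ j)).imp (PolyP.eq (poly_dg i hn hs') (poly_dg i hn hs))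
  · exact poly_fac q (P := fun a i => dg (n a) (s a) i < n a →
      Kr (n a) (rT (n a) (t a)) (dg (n a) (s a) i) (dg (n a) (s' a) j))
      fun i _ => (PolyP.lt (poly_dg i hn hs) hn).imp
        (poly_kr hn ht (poly_dg i hn hs) (poly_dg j hn hs'))
  · exact (PolyP.lt (poly_dg j hn hs) hn).imp
      (poly_rT hn ht (poly_dg j hn hs) (poly_dg j hn hs'))

theorem poly_gR (q : ℕ) {T : α → List Bool} {z : α → ℕ} (hn : PolyN D ctx n)
    (ht : PolyC D ctx t) (hT : PolyC D ctx T) (hz : PolyN D ctx z) :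
    PolyP D ctx (fun a => gR (n a) (rT (n a) (t a)) q (tb (T a)) (z a)) := by
  have dv : PolyN D ctx (fun a => z a / (n a + 1)) := n_div hz hn.succ
  have md : PolyN D ctx (fun a => z a % (n a + 1)) := n_mod hz hn.succ
  have e1 : PolyP D ctx (fun a => z a % (n a + 1) = 0) := PolyP.eq md (PolyN.const 0)
  have e2 : PolyP D ctx (fun a => ∃ s' < (n a + 1) ^ q,
      St (n a) (rT (n a) (t a)) q (z a / (n a + 1)) s' ∧
      tb (T a) (s' * (n a + 1) + (z a % (n a + 1) - 1))) := by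
    refine p_ex (n := fun a => (n a + 1) ^ q) (P := fun a s' =>
      St (n a) (rT (n a) (t a)) q (z a / (n a + 1)) s' ∧
      tb (T a) (s' * (n a + 1) + (z a % (n a + 1) - 1))) (PolyN.pow hn.succ q) ?_
    have n1 : PolyN (Dx D (fun a => (n a + 1) ^ q)) (cx ctx) (fun p => n p.1) := nU hn
    have t1 : PolyC (Dx D (fun a => (n a + 1) ^ q)) (cx ctx) (fun p => t p.1) := cU ht
    have T1 : PolyC (Dx D (fun a => (n a + 1) ^ q)) (cx ctx) (fun p => T p.1) := cU hT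
    have dv1 : PolyN (Dx D (fun a => (n a + 1) ^ q)) (cx ctx)
      (fun p => z p.1 / (n p.1 + 1)) := nU dv
    have md1 : PolyN (Dx D (fun a => (n a + 1) ^ q)) (cx ctx)
      (fun p => z p.1 % (n p.1 + 1)) := nU md
    have s1 : PolyN (Dx D (fun a => (n a + 1) ^ q)) (cx ctx) (fun p => p.2) := nL
    exact (poly_st q n1 t1 dv1 s1).and (poly_tb T1
      ((s1.mul n1.succ).add (Pool.Agent.Lib.Pa7c826.PolyN.sub md1 (PolyN.const 1))))
  exact e1.or e2

theorem poly_gq (q : ℕ) (hn : PolyN D ctx n) (ht : PolyC D ctx t) (hs : PolyN D ctx s)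
    (hg : PolyN D ctx g) :
    PolyP D ctx (fun a => Gq (n a) (rT (n a) (t a)) q (s a) (g a)) := by
  obtain ⟨T, hT, hTs⟩ := poly_tab' (D := D) (ctx := ctx)
    (R := fun a => gR (n a) (rT (n a) (t a)) q)
    (S := fun a => (n a + 1) ^ q * (n a + 1)) ((PolyN.pow hn.succ q).mul hn.succ)
    (fun T x D' ctx' hD hctx hT hx =>
      poly_gR (n := fun p : (α × ℕ) × ℕ => n p.1.1) (t := fun p => t p.1.1)
        (T := fun p => T p.1) q
        (poly_moveC (fun p : (α × ℕ) × ℕ => p.1.1) hD hctx hn)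
        (poly_moveC (fun p : (α × ℕ) × ℕ => p.1.1) hD hctx ht) hT hx)
  refine (poly_tb hT ((hs.mul hn.succ).add hg)).congr (fun a ha => ?_)
  rw [hTs a ha]
  exact Iff.rfl

theorem poly_nx (q : ℕ) (hn : PolyN D ctx n) (ht : PolyC D ctx t) (hs : PolyN D ctx s)
    (hg : PolyN D ctx g) (hs' : PolyN D ctx s') :
    PolyP D ctx (fun a => Nx (n a) (rT (n a) (t a)) q (s a) (g a) (s' a)) := by
  refine (poly_st q hn ht hs hs').and ((poly_gq q hn ht hs' hg).and ?_)
  refine p_fa (n := s') (P := fun a s'' => ¬ (St (n a) (rT (n a) (t a)) q (s a) s'' ∧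
    Gq (n a) (rT (n a) (t a)) q s'' (g a))) hs' ?_
  exact ((poly_st q (nU hn) (cU ht) (nU hs) nL).and (poly_gq q (nU hn) (cU ht) nL (nU hg))).not

theorem poly_vR (q : ℕ) {T : α → List Bool} {z : α → ℕ} (hn : PolyN D ctx n)
    (ht : PolyC D ctx t) (hM : PolyN D ctx M) (hT : PolyC D ctx T) (hz : PolyN D ctx z) :
    PolyP D ctx (fun a => vR (n a) (rT (n a) (t a)) q (M a) (tb (T a)) (z a)) := by
  have dv : PolyN D ctx (fun a => z a / (n a + 1)) := n_div hz hn.succ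
  have md : PolyN D ctx (fun a => z a % (n a + 1)) := n_mod hz hn.succ
  have e1 : PolyP D ctx (fun a => z a % (n a + 1) = M a ∧
      ∀ j < q, dg (n a) (z a / (n a + 1)) j = n a) :=
    (PolyP.eq md hM).and (poly_fac q (P := fun a j => dg (n a) (z a / (n a + 1)) j = n a)
      fun j _ => PolyP.eq (poly_dg j hn dv) hn)
  have e2 : PolyP D ctx (fun a => ∃ s0 < (n a + 1) ^ q, z a % (n a + 1) < n a ∧
      tb (T a) (s0 * (n a + 1) + (z a % (n a + 1) + 1)) ∧
      Nx (n a) (rT (n a) (t a)) q s0 (z a % (n a + 1)) (z a / (n a + 1))) := by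
    refine p_ex (n := fun a => (n a + 1) ^ q) (P := fun a s0 => z a % (n a + 1) < n a ∧
      tb (T a) (s0 * (n a + 1) + (z a % (n a + 1) + 1)) ∧
      Nx (n a) (rT (n a) (t a)) q s0 (z a % (n a + 1)) (z a / (n a + 1)))
      (PolyN.pow hn.succ q) ?_
    have n1 : PolyN (Dx D (fun a => (n a + 1) ^ q)) (cx ctx) (fun p => n p.1) := nU hn
    have t1 : PolyC (Dx D (fun a => (n a + 1) ^ q)) (cx ctx) (fun p => t p.1) := cU ht
    have T1 : PolyC (Dx D (fun a => (n a + 1) ^ q)) (cx ctx) (fun p => T p.1) := cU hT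
    have dv1 : PolyN (Dx D (fun a => (n a + 1) ^ q)) (cx ctx)
      (fun p => z p.1 / (n p.1 + 1)) := nU dv
    have md1 : PolyN (Dx D (fun a => (n a + 1) ^ q)) (cx ctx)
      (fun p => z p.1 % (n p.1 + 1)) := nU md
    have s1 : PolyN (Dx D (fun a => (n a + 1) ^ q)) (cx ctx) (fun p => p.2) := nL
    exact (PolyP.lt md1 n1).and ((poly_tb T1 ((s1.mul n1.succ).add md1.succ)).and
      (poly_nx q n1 t1 s1 md1 dv1))
  exact e1.or e2

theorem poly_vq (q : ℕ) (hn : PolyN D ctx n) (ht : PolyC D ctx t) (hM : PolyN D ctx M)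
    (hs : PolyN D ctx s) (hg : PolyN D ctx g) :
    PolyP D ctx (fun a => Vq (n a) (rT (n a) (t a)) q (M a) (s a) (g a)) := by
  obtain ⟨T, hT, hTs⟩ := poly_tab' (D := D) (ctx := ctx)
    (R := fun a => vR (n a) (rT (n a) (t a)) q (M a))
    (S := fun a => (n a + 1) ^ q * (n a + 1)) ((PolyN.pow hn.succ q).mul hn.succ)
    (fun T x D' ctx' hD hctx hT hx =>
      poly_vR (n := fun p : (α × ℕ) × ℕ => n p.1.1) (t := fun p => t p.1.1)
        (M := fun p => M p.1.1) (T := fun p => T p.1) q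
        (poly_moveC (fun p : (α × ℕ) × ℕ => p.1.1) hD hctx hn)
        (poly_moveC (fun p : (α × ℕ) × ℕ => p.1.1) hD hctx ht)
        (poly_moveC (fun p : (α × ℕ) × ℕ => p.1.1) hD hctx hM) hT hx)
  refine (poly_tb hT ((hs.mul hn.succ).add hg)).congr (fun a ha => ?_)
  rw [hTs a ha]
  exact Iff.rfl

end PLabAux

open PLabAux

theorem poly_lq (q j : ℕ) (hj : j < q) (hn : PolyN D ctx n) (ht : PolyC D ctx t)
    (hM : PolyN D ctx M) (hy : PolyN D ctx y) :
    PolyP D ctx (fun a => Lq (n a) (rT (n a) (t a)) q (M a) j (y a)) := by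
  have _ := hj
  refine (PolyP.lt hy hn).and ?_
  refine p_ex (n := n) (P := fun a g => ∃ s < (n a + 1) ^ q, ∃ s' < (n a + 1) ^ q,
    Vq (n a) (rT (n a) (t a)) q (M a) s (g + 1) ∧ Nx (n a) (rT (n a) (t a)) q s g s' ∧
      dg (n a) s' j = y a ∧ dg (n a) s j ≠ y a) hn ?_
  have n1 : PolyN (Dx D n) (cx ctx) (fun p => n p.1) := nU hn
  have t1 : PolyC (Dx D n) (cx ctx) (fun p => t p.1) := cU ht
  have M1 : PolyN (Dx D n) (cx ctx) (fun p => M p.1) := nU hM
  have y1 : PolyN (Dx D n) (cx ctx) (fun p => y p.1) := nU hy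
  have g1 : PolyN (Dx D n) (cx ctx) (fun p => p.2) := nL
  refine p_ex (n := fun p : α × ℕ => (n p.1 + 1) ^ q) (P := fun p s =>
    ∃ s' < (n p.1 + 1) ^ q,
    Vq (n p.1) (rT (n p.1) (t p.1)) q (M p.1) s (p.2 + 1) ∧
      Nx (n p.1) (rT (n p.1) (t p.1)) q s p.2 s' ∧
      dg (n p.1) s' j = y p.1 ∧ dg (n p.1) s j ≠ y p.1) (PolyN.pow n1.succ q) ?_
  have n2 := nU (n := fun p : α × ℕ => (n p.1 + 1) ^ q) n1
  have t2 := cU (n := fun p : α × ℕ => (n p.1 + 1) ^ q) t1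
  have M2 := nU (n := fun p : α × ℕ => (n p.1 + 1) ^ q) M1
  have y2 := nU (n := fun p : α × ℕ => (n p.1 + 1) ^ q) y1
  have g2 := nU (n := fun p : α × ℕ => (n p.1 + 1) ^ q) g1
  have s2 : PolyN (Dx (Dx D n) (fun p => (n p.1 + 1) ^ q)) (cx (cx ctx)) (fun p => p.2) := nL
  refine p_ex (n := fun p : (α × ℕ) × ℕ => (n p.1.1 + 1) ^ q) (P := fun p s' =>
    Vq (n p.1.1) (rT (n p.1.1) (t p.1.1)) q (M p.1.1) p.2 (p.1.2 + 1) ∧
      Nx (n p.1.1) (rT (n p.1.1) (t p.1.1)) q p.2 p.1.2 s' ∧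
      dg (n p.1.1) s' j = y p.1.1 ∧ dg (n p.1.1) p.2 j ≠ y p.1.1) (PolyN.pow n2.succ q) ?_
  have n3 := nU (n := fun p : (α × ℕ) × ℕ => (n p.1.1 + 1) ^ q) n2
  have t3 := cU (n := fun p : (α × ℕ) × ℕ => (n p.1.1 + 1) ^ q) t2
  have M3 := nU (n := fun p : (α × ℕ) × ℕ => (n p.1.1 + 1) ^ q) M2
  have y3 := nU (n := fun p : (α × ℕ) × ℕ => (n p.1.1 + 1) ^ q) y2
  have g3 := nU (n := fun p : (α × ℕ) × ℕ => (n p.1.1 + 1) ^ q) g2
  have s3 := nU (n := fun p : (α × ℕ) × ℕ => (n p.1.1 + 1) ^ q) s2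
  have s3' : PolyN (Dx (Dx (Dx D n) (fun p => (n p.1 + 1) ^ q))
    (fun p => (n p.1.1 + 1) ^ q)) (cx (cx (cx ctx))) (fun p => p.2) := nL
  exact (poly_vq q n3 t3 M3 s3 g3.succ).and ((poly_nx q n3 t3 s3 g3 s3').and
    ((PolyP.eq (poly_dg j n3 s3') y3).and (PolyP.eq (poly_dg j n3 s3) y3).not))

end Pool.Agent.P49q
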