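import Pool.Agent.Lib.P49k.Defs

/-!
# `q + 2` processors, `q` disjoint chains with at least `q * D - k` tasks: definitions for the proof

The tasks are the numbers `0, ..., n - 1`. A state is the code of the last elements of `q` disjoint
chains (digits in base `n + 1`; the digit `n` means that the chain is empty). The elements are added
in the order `Kr`, a linear extension of `r`.
-/

set_option autoImplicit false

namespace Pool.Agent.P49q

open Finset Pool.Agent.P99b9fe Pool.Agent.P49d Pool.Agent.P49k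

open Classical in
/-- The number of predecessors of `x`. -/
noncomputable def pd (n : ℕ) (r : ℕ → ℕ → Prop) (x : ℕ) : ℕ :=
  ((range n).filter (fun z => r z x)).card

/-- A linear extension of `r`. -/
def Kr (n : ℕ) (r : ℕ → ℕ → Prop) (x y : ℕ) : Prop :=
  pd n r x < pd n r y ∨ (pd n r x = pd n r y ∧ x < y)

/-- The digit `j` of `s` in base `n + 1`. -/
def dg (n s j : ℕ) : ℕ := s / (n + 1) ^ j % (n + 1)

/-- The state `s'` arises from the state `s` by adding one element, which comes after all last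
elements, to the chain `j`. -/
def St (n : ℕ) (r : ℕ → ℕ → Prop) (q s s' : ℕ) : Prop :=
  ∃ j < q, dg n s' j < n ∧ (∀ i < q, i ≠ j → dg n s' i = dg n s i) ∧
    (∀ i < q, dg n s i < n → Kr n r (dg n s i) (dg n s' j)) ∧
    (dg n s j < n → r (dg n s j) (dg n s' j))

/-- The rule for the states to which `g` elements can be added. -/
def gC (n : ℕ) (r : ℕ → ℕ → Prop) (q : ℕ) (T : ℕ → Prop) (s g : ℕ) : Prop :=
  g = 0 ∨ ∃ s' < (n + 1) ^ q, St n r q s s' ∧ T (s' * (n + 1) + (g - 1))

/-- The rule for the index `s * (n + 1) + g`. -/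
def gR (n : ℕ) (r : ℕ → ℕ → Prop) (q : ℕ) (T : ℕ → Prop) (p : ℕ) : Prop :=
  gC n r q T (p / (n + 1)) (p % (n + 1))

/-- At least `g` elements can be added to the state `s`. -/
def Gq (n : ℕ) (r : ℕ → ℕ → Prop) (q s g : ℕ) : Prop :=
  tabP (gR n r q) ((n + 1) ^ q * (n + 1)) ((n + 1) ^ q * (n + 1)) (s * (n + 1) + g)

/-- The canonical next state, when `g` further elements are to be added after it. -/
def Nx (n : ℕ) (r : ℕ → ℕ → Prop) (q s g s' : ℕ) : Prop :=
  St n r q s s' ∧ Gq n r q s' g ∧ ∀ s'' < s', ¬ (St n r q s s'' ∧ Gq n r q s'' g)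

/-- The rule for the states on the canonical path with `M` elements. -/
def vC (n : ℕ) (r : ℕ → ℕ → Prop) (q M : ℕ) (T : ℕ → Prop) (s g : ℕ) : Prop :=
  (g = M ∧ ∀ j < q, dg n s j = n) ∨
    ∃ s0 < (n + 1) ^ q, g < n ∧ T (s0 * (n + 1) + (g + 1)) ∧ Nx n r q s0 g s

/-- The rule for the index `s * (n + 1) + g`. -/
def vR (n : ℕ) (r : ℕ → ℕ → Prop) (q M : ℕ) (T : ℕ → Prop) (p : ℕ) : Prop :=
  vC n r q M T (p / (n + 1)) (p % (n + 1))

/-- The state `s`, with `g` elements still to be added, is on the canonical path. -/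
def Vq (n : ℕ) (r : ℕ → ℕ → Prop) (q M s g : ℕ) : Prop :=
  tabP (vR n r q M) ((n + 1) ^ q * (n + 1)) ((n + 1) ^ q * (n + 1)) (s * (n + 1) + g)

/-- The task `y` is in the chain `j` of the canonical family with `M` elements. -/
def Lq (n : ℕ) (r : ℕ → ℕ → Prop) (q M j y : ℕ) : Prop :=
  y < n ∧ ∃ g < n, ∃ s < (n + 1) ^ q, ∃ s' < (n + 1) ^ q,
    Vq n r q M s (g + 1) ∧ Nx n r q s g s' ∧ dg n s' j = y ∧ dg n s j ≠ y

/-- The slot `u` is one of the digits `j * k, ..., j * k + k - 1` of `z`. -/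
def Zq (n k z j u : ℕ) : Prop := ∃ i < k, dg n z (j * k + i) = u

/-- The task `x` is put into the slot `u` by the digits `j * k, ..., j * k + k - 1`. -/
def Eq (n k z e j x u : ℕ) : Prop := ∃ i < k, dg n z (j * k + i) = u ∧ dg n e (j * k + i) = x

open Classical in
/-- The number of slots before `u` which are not among the digits. -/
noncomputable def iq (n k z j u : ℕ) : ℕ := ((range u).filter (fun v => ¬ Zq n k z j v)).card

open Classical in
/-- The number of predecessors of `x` in the chain `j`. -/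
noncomputable def pq (n : ℕ) (r : ℕ → ℕ → Prop) (q M j x : ℕ) : ℕ :=
  ((range n).filter (fun y => Lq n r q M j y ∧ r y x)).card

/-- The fixed tasks. -/
def Fq (n : ℕ) (r : ℕ → ℕ → Prop) (q k D z e x u : ℕ) : Prop :=
  x < n ∧ u < n ∧ u < D ∧ ∃ j < q,
    (¬ Zq n k z j u ∧ Lq n r q (q * D - k) j x ∧ pq n r q (q * D - k) j x = iq n k z j u) ∨
      Eq n k z e j x u

open Classical in
/-- The test: there is a schedule in which the tasks fixed by `F`, at most `q` in every slot, are in
their slots and at most two other tasks in every slot. -/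
def OkQ (n : ℕ) (r F : ℕ → ℕ → Prop) (q D : ℕ) : Prop :=
  (∀ x < n, ∀ u < n, F x u → u < D) ∧
  (∀ x < n, ∀ u < n, ∀ v < n, F x u → F x v → u = v) ∧
  (∀ u < n, ((range n).filter (fun x => F x u)).card ≤ q) ∧
  (∀ x < n, ∀ u < n, ∀ y < n, ∀ v < n, F x u → F y v → r x y → u < v) ∧
  ∀ s < n + 1, ∀ d < n + 1,
    ((range n).filter (fun x => Fr n F x ∧ Dl n r F D x d ∧ Rg n r F x s)).card ≤ 2 * (d - s)

/-- The algorithm finds a schedule for the deadline `D`. -/
def AccQ (n : ℕ) (r : ℕ → ℕ → Prop) (q k D : ℕ) : Prop :=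
  ∃ z < (n + 1) ^ (q * k), ∃ e < (n + 1) ^ (q * k), OkQ n r (Fq n r q k D z e) q D

open Classical in
/-- The number found by the algorithm. -/
noncomputable def gvalQ (n : ℕ) (r : ℕ → ℕ → Prop) (q k : ℕ) : ℕ :=
  ((range n).filter (fun D => ∀ D' < D + 1, ¬ AccQ n r q k D')).card

end Pool.Agent.P49q
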