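import Pool.Agent.Lib.P49q.Defs
import Pool.Agent.Lib.P49k.POk

/-!
# Module P49q.POk: polynomial time, the test `OkQ`

As `P49k/POk.lean`, the third condition by `n_card`, `PolyP.le`, `PolyN.const q`.
-/

set_option autoImplicit false

namespace Pool.Agent.P49q

open Finset Pool.Agent.P99b9fe Pool.Agent.Lib.PolyTime Pool.Agent.Lib.Pa7c826
open Pool.Agent.Lib.P8e91ed.PT Pool.Agent.P49d Pool.Agent.P49k Pool.Agent.P49k.POkAux

variable {α : Type} {D : α → Prop} {ctx : List (α → List Bool)} {n d : α → ℕ}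
  {t F : α → List Bool}

theorem poly_okQ (q : ℕ) (hn : PolyN D ctx n) (ht : PolyC D ctx t) (hF : PolyC D ctx F)
    (hd : PolyN D ctx d) :
    PolyP D ctx (fun a => OkQ (n a) (rT (n a) (t a)) (rT (n a) (F a)) q (d a)) := by
  classical
  obtain ⟨T, hT, hTs⟩ := poly_tab' (D := D) (ctx := ctx)
    (R := fun a => gjR (n a) (rT (n a) (t a)) (rT (n a) (F a)) (d a))
    (S := fun a => n a * (n a + 1)) (hn.mul hn.succ) (by
      intro T z D' ctx' hD hc hT hz
      have n1 : PolyN D' ctx' (fun p => n p.1.1) :=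
        poly_moveC (fun p : (α × ℕ) × ℕ => p.1.1) hD hc hn
      have t1 : PolyC D' ctx' (fun p => t p.1.1) :=
        poly_moveC (fun p : (α × ℕ) × ℕ => p.1.1) hD hc ht
      have F1 : PolyC D' ctx' (fun p => F p.1.1) :=
        poly_moveC (fun p : (α × ℕ) × ℕ => p.1.1) hD hc hF
      have d1 : PolyN D' ctx' (fun p => d p.1.1) :=
        poly_moveC (fun p : (α × ℕ) × ℕ => p.1.1) hD hc hd
      exact poly_gjR n1 t1 F1 d1 hT hz)
  have p1 : PolyP D ctx (fun a => ∀ x < n a, ∀ u < n a, rT (n a) (F a) x u → u < d a) :=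
    p_fa hn (p_fa (nU hn) ((poly_rT (nU (nU hn)) (cU (cU hF)) (nU nL) nL).imp
      (PolyP.lt nL (nU (nU hd)))))
  have p2 : PolyP D ctx (fun a => ∀ x < n a, ∀ u < n a, ∀ v < n a, rT (n a) (F a) x u →
      rT (n a) (F a) x v → u = v) :=
    p_fa hn (p_fa (nU hn) (p_fa (nU (nU hn))
      ((poly_rT (nU (nU (nU hn))) (cU (cU (cU hF))) (nU (nU nL)) (nU nL)).imp
        ((poly_rT (nU (nU (nU hn))) (cU (cU (cU hF))) (nU (nU nL)) nL).imp
          (PolyP.eq (nU nL) nL)))))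
  have p3 : PolyP D ctx (fun a => ∀ u < n a,
      ((range (n a)).filter (fun x => rT (n a) (F a) x u)).card ≤ q) := by
    refine p_fa hn (PolyP.le ?_ (PolyN.const q))
    exact n_card (n := fun p : α × ℕ => n p.1) (P := fun p x => rT (n p.1) (F p.1) x p.2)
      (nU hn) (poly_rT (nU (nU hn)) (cU (cU hF)) nL (nU nL))
  have p4 : PolyP D ctx (fun a => ∀ x < n a, ∀ u < n a, ∀ y < n a, ∀ v < n a,
      rT (n a) (F a) x u → rT (n a) (F a) y v → rT (n a) (t a) x y → u < v) :=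
    p_fa hn (p_fa (nU hn) (p_fa (nU (nU hn)) (p_fa (nU (nU (nU hn)))
      ((poly_rT (nU (nU (nU (nU hn)))) (cU (cU (cU (cU hF)))) (nU (nU (nU nL))) (nU (nU nL))).imp
        ((poly_rT (nU (nU (nU (nU hn)))) (cU (cU (cU (cU hF)))) (nU nL) nL).imp
          ((poly_rT (nU (nU (nU (nU hn)))) (cU (cU (cU (cU ht)))) (nU (nU (nU nL))) (nU nL)).imp
            (PolyP.lt (nU (nU nL)) nL)))))))
  have p5 : PolyP D ctx (fun a => ∀ s < n a + 1, ∀ e < n a + 1,
      ((range (n a)).filter (fun x => Fr (n a) (rT (n a) (F a)) x ∧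
        tb (T a) (x * (n a + 1) + e) ∧
          Rg (n a) (rT (n a) (t a)) (rT (n a) (F a)) x s)).card ≤ 2 * (e - s)) := by
    refine p_fa hn.succ (p_fa (nU hn).succ ?_)
    refine PolyP.le ?_ ((PolyN.const 2).mul (PolyN.sub nL (nU nL)))
    refine n_card (n := fun p : (α × ℕ) × ℕ => n p.1.1)
      (P := fun p x => Fr (n p.1.1) (rT (n p.1.1) (F p.1.1)) x ∧
        tb (T p.1.1) (x * (n p.1.1 + 1) + p.2) ∧
          Rg (n p.1.1) (rT (n p.1.1) (t p.1.1)) (rT (n p.1.1) (F p.1.1)) x p.1.2)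
      (nU (nU hn)) ?_
    refine (poly_fr (nU (nU (nU hn))) (cU (cU (cU hF))) nL).and ?_
    refine (poly_tb (cU (cU (cU hT))) ((nL.mul (nU (nU (nU hn))).succ).add (nU nL))).and ?_
    exact poly_rg (nU (nU (nU hn))) (cU (cU (cU ht))) (cU (cU (cU hF))) nL (nU (nU nL))
  refine (p1.and (p2.and (p3.and (p4.and p5)))).congr fun a ha => ?_
  unfold OkQ Dl
  rw [← hTs a ha]

end Pool.Agent.P49q
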