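import Pool.Agent.Lib.P49q.Acc
import Pool.Agent.Lib.P49q.POk
import Pool.Agent.Lib.P49q.PFq
import Pool.Agent.Lib.P49d.PIn
import Pool.Agent.Lib.P49d.Final

/-!
# A fixed number of processors, long disjoint chains: the theorem
-/

set_option autoImplicit false

namespace Pool.Agent.P49q

open Finset Pool.Agent.P99b9fe Pool.Agent.Lib.PolyTime Pool.Agent.Lib.Pa7c826
open Pool.Agent.Lib.P8e91ed.PT Pool.Agent.P49d Pool.Agent.P49k

section Poly

variable {α : Type} {D : α → Prop} {ctx : List (α → List Bool)} {n d : α → ℕ}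
  {t : α → List Bool}

theorem poly_accQ (q k : ℕ) (hn : PolyN D ctx n) (ht : PolyC D ctx t) (hd : PolyN D ctx d) :
    PolyP D ctx (fun a => AccQ (n a) (rT (n a) (t a)) q k (d a)) := by
  have hN : PolyN D ctx (fun a => (n a + 1) ^ (q * k)) := PolyN.pow hn.succ (q * k)
  have hN1 : PolyN (Dx D (fun a => (n a + 1) ^ (q * k))) (cx ctx) (fun p => (n p.1 + 1) ^ (q * k)) := nU hN
  have h1 : PolyP D ctx (fun a => ∃ z < (n a + 1) ^ (q * k), ∃ e < (n a + 1) ^ (q * k),
      OkQ (n a) (rT (n a) (t a)) (Fq (n a) (rT (n a) (t a)) q k (d a) z e) q (d a)) := by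
    refine p_ex (n := fun a => (n a + 1) ^ (q * k)) (P := fun a z => ∃ e < (n a + 1) ^ (q * k),
      OkQ (n a) (rT (n a) (t a)) (Fq (n a) (rT (n a) (t a)) q k (d a) z e) q (d a)) hN ?_
    refine p_ex (n := fun p : α × ℕ => (n p.1 + 1) ^ (q * k)) (P := fun p e =>
      OkQ (n p.1) (rT (n p.1) (t p.1)) (Fq (n p.1) (rT (n p.1) (t p.1)) q k (d p.1) p.2 e) q (d p.1))
      hN1 ?_
    have n2 : PolyN (Dx (Dx D (fun a => (n a + 1) ^ (q * k))) (fun p : α × ℕ => (n p.1 + 1) ^ (q * k)))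
        (cx (cx ctx)) (fun q => n q.1.1) := nU (nU hn)
    have d2 : PolyN (Dx (Dx D (fun a => (n a + 1) ^ (q * k))) (fun p : α × ℕ => (n p.1 + 1) ^ (q * k)))
        (cx (cx ctx)) (fun q => d q.1.1) := nU (nU hd)
    have t2 : PolyC (Dx (Dx D (fun a => (n a + 1) ^ (q * k))) (fun p : α × ℕ => (n p.1 + 1) ^ (q * k)))
        (cx (cx ctx)) (fun q => t q.1.1) := cU (cU ht)
    have z2 : PolyN (Dx (Dx D (fun a => (n a + 1) ^ (q * k))) (fun p : α × ℕ => (n p.1 + 1) ^ (q * k)))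
        (cx (cx ctx)) (fun q => q.1.2) := nU nL
    have e2 : PolyN (Dx (Dx D (fun a => (n a + 1) ^ (q * k))) (fun p : α × ℕ => (n p.1 + 1) ^ (q * k)))
        (cx (cx ctx)) (fun q => q.2) := nL
    obtain ⟨F, hF, hF'⟩ := poly_fq q k n2 t2 d2 z2 e2
    refine (poly_okQ q n2 t2 hF d2).congr (fun q hq => ?_)
    rw [hF' q hq]
  exact h1.congr (fun a _ => Iff.rfl)

theorem poly_gvalQ (q k : ℕ) (hn : PolyN D ctx n) (ht : PolyC D ctx t) :
    PolyN D ctx (fun a => gvalQ (n a) (rT (n a) (t a)) q k) := by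
  classical
  have h1 : PolyP (Dx D n) (cx ctx)
      (fun p => ∀ k' < p.2 + 1, ¬ AccQ (n p.1) (rT (n p.1) (t p.1)) q k k') := by
    refine p_fa (n := fun p : α × ℕ => p.2 + 1)
      (P := fun p k' => ¬ AccQ (n p.1) (rT (n p.1) (t p.1)) q k k') nL.succ ?_
    exact (poly_accQ q k (n := fun p : (α × ℕ) × ℕ => n p.1.1)
      (t := fun p => t p.1.1) (d := fun p => p.2) (nU (nU hn)) (cU (cU ht)) nL).not
  have h2 : PolyN D ctx (fun a => ((range (n a)).filter (fun j => ∀ k' < j + 1,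
      ¬ AccQ (n a) (rT (n a) (t a)) q k k')).card) :=
    n_card (n := n) (P := fun a j => ∀ k' < j + 1, ¬ AccQ (n a) (rT (n a) (t a)) q k k') hn h1
  refine h2.congr (fun a ha => ?_)
  unfold gvalQ
  congr

end Poly

private theorem card_spec (n : ℕ) (P : ℕ → Prop)
    [DecidablePred (fun k => ∀ k' < k + 1, ¬ P k')] :
    ((range n).filter (fun k => ∀ k' < k + 1, ¬ P k')).card ≤ n ∧
    (((range n).filter (fun k => ∀ k' < k + 1, ¬ P k')).card < n →
      P ((range n).filter (fun k => ∀ k' < k + 1, ¬ P k')).card) ∧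
    ∀ D < n, P D → ((range n).filter (fun k => ∀ k' < k + 1, ¬ P k')).card ≤ D := by
  classical
  by_cases h : ∃ k, k < n ∧ P k
  · have h0 := Nat.find_spec h
    have h1 : ∀ j, j < Nat.find h → ¬ (j < n ∧ P j) := fun j hj => Nat.find_min h hj
    have hS : (range n).filter (fun k => ∀ k' < k + 1, ¬ P k') = range (Nat.find h) := by
      ext k
      simp only [mem_filter, mem_range]
      constructor
      · rintro ⟨hk, hk'⟩
        by_contra hc
        exact hk' (Nat.find h) (by omega) h0.2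
      · intro hk
        refine ⟨by omega, fun k' hk' hP => h1 k' (by omega) ⟨by omega, hP⟩⟩
    rw [hS, card_range]
    exact ⟨h0.1.le, fun _ => h0.2, fun D hD hP => Nat.find_min' h ⟨hD, hP⟩⟩
  · have hS : (range n).filter (fun k => ∀ k' < k + 1, ¬ P k') = range n := by
      apply filter_true_of_mem
      intro k hk k' hk' hP
      exact h ⟨k', by rw [mem_range] at hk; omega, hP⟩
    rw [hS, card_range]
    exact ⟨le_rfl, fun h' => absurd h' (lt_irrefl n), fun D hD hP => absurd ⟨D, hD, hP⟩ h⟩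

theorem gvalQ_sound {n : ℕ} {r : ℕ → ℕ → Prop} (hr : SO r) (q k : ℕ) :
    Sd r (range n) (q + 2) (gvalQ n r q k) := by
  classical
  obtain ⟨h1, h2, -⟩ := card_spec n (AccQ n r q k)
  have hg : gvalQ n r q k =
      ((range n).filter (fun j => ∀ k' < j + 1, ¬ AccQ n r q k k')).card := by
    unfold gvalQ
    congr
  rw [← hg] at h1 h2
  rcases Nat.lt_or_ge (gvalQ n r q k) n with h | h
  · obtain ⟨z, -, e, -, hok⟩ := h2 h
    exact ok_sdQ hr h.le hok
  · have h6 : gvalQ n r q k = n := le_antisymm h1 h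
    rw [h6]
    have h7 := sd_triv (V := range n) (m := q + 2) hr (by omega)
    rwa [card_range] at h7

theorem gvalQ_opt {n q k D : ℕ} {r : ℕ → ℕ → Prop} (hr : SO r)
    (hb : ∀ x y, r x y → x < n ∧ y < n)
    (C : ℕ → Finset ℕ) (hC : ∀ j < q, C j ⊆ range n)
    (hC' : ∀ j < q, ∀ x ∈ C j, ∀ y ∈ C j, x ≠ y → r x y ∨ r y x)
    (hC'' : ∀ i < q, ∀ j < q, i ≠ j → Disjoint (C i) (C j))
    (hk : q * D ≤ (∑ j ∈ range q, (C j).card) + k) (h : Sd r (range n) (q + 2) D) :
    gvalQ n r q k ≤ D := by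
  classical
  obtain ⟨h1, -, h3⟩ := card_spec n (AccQ n r q k)
  have hg : gvalQ n r q k =
      ((range n).filter (fun j => ∀ k' < j + 1, ¬ AccQ n r q k k')).card := by
    unfold gvalQ
    congr
  rw [← hg] at h1 h3
  rcases Nat.lt_or_ge D n with hD | hD
  · exact h3 D hD (accQ_of hr hb hD C hC hC' hC'' hk h)
  · exact h1.trans hD

theorem main (m k : ℕ) (hm : 2 ≤ m) : ∃ f : P49d.Inst → ℕ,
    Nonempty (Turing.TM2ComputableInPolyTime (α := P49d.Inst) (αΓ := Bool) (βΓ := Bool)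
      P49d.enc (fun x => List.replicate x true) f) ∧
    ∀ (n : ℕ) (r : Fin n → Fin n → Prop) (hr : SO r),
      Sd r univ m (f ⟨n, r, hr⟩) ∧
      ∀ C : Fin (m - 2) → Finset (Fin n), (∀ j, ∀ x ∈ C j, ∀ y ∈ C j, x ≠ y → r x y ∨ r y x) →
        (∀ i j, i ≠ j → Disjoint (C i) (C j)) →
        ∀ D, (m - 2) * D ≤ (∑ j, (C j).card) + k → Sd r univ m D → f ⟨n, r, hr⟩ ≤ D := by
  obtain ⟨q, rfl⟩ : ∃ q, m = q + 2 := ⟨m - 2, by omega⟩
  rw [Nat.add_sub_cancel]
  have h : PolyC (fun _ : P49d.Inst => True) [P49d.enc] (fun I => P49d.enc I) :=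
    PolyC.var (by simp)
  have hn := poly_nI h
  obtain ⟨t, ht, ht'⟩ := poly_tI h
  have h1 : PolyN (fun _ : P49d.Inst => True) [P49d.enc] (fun I => gvalQ I.1 (rN I.2.1) q k) :=
    (poly_gvalQ q k hn ht).congr fun I hI => by rw [ht' I hI]
  refine ⟨fun I => gvalQ I.1 (rN I.2.1) q k, toTM2'' _ (fun x => List.replicate x true) h1,
    fun n r hr => ⟨?_, ?_⟩⟩
  · exact sd_fin.1 (gvalQ_sound (rN_so hr) q k)
  · intro C hC hC2 D hD hsd
    have hCj : ∀ j (hj : j < q), (if h : j < q then (C ⟨j, h⟩).map Fin.valEmbedding else ∅) =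
        (C ⟨j, hj⟩).map Fin.valEmbedding := fun j hj => dif_pos hj
    refine gvalQ_opt (rN_so hr) (fun x y hxy => ?_)
      (fun j => if h : j < q then (C ⟨j, h⟩).map Fin.valEmbedding else ∅) ?_ ?_ ?_ ?_
      (sd_fin.2 hsd)
    · exact ⟨mem_range.1 (rN_bd x y hxy).1, mem_range.1 (rN_bd x y hxy).2⟩
    · intro j hj x hx
      simp only [hCj j hj] at hx
      obtain ⟨y, -, rfl⟩ := mem_map.1 hx
      exact mem_range.2 y.2
    · intro j hj x hx y hy hxy
      simp only [hCj j hj] at hx hy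
      obtain ⟨x', hx', rfl⟩ := mem_map.1 hx
      obtain ⟨y', hy', rfl⟩ := mem_map.1 hy
      have hne : x' ≠ y' := fun h => hxy (by rw [h])
      rcases hC _ x' hx' y' hy' hne with h2 | h2
      · exact Or.inl ⟨x'.2, y'.2, h2⟩
      · exact Or.inr ⟨y'.2, x'.2, h2⟩
    · intro i hi j hj hij
      simp only [hCj i hi, hCj j hj]
      rw [disjoint_map]
      exact hC2 _ _ (fun h => hij (congrArg Fin.val h))
    · refine hD.trans (Nat.add_le_add_right (le_of_eq ?_) k)
      rw [Finset.sum_range]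
      refine Finset.sum_congr rfl fun j _ => ?_
      simp only [hCj j.1 j.2]
      rw [card_map]

end Pool.Agent.P49q
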